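import Mathlib

set_option autoImplicit false

/-!
# Quasi-polynomial quantities
-/

namespace Pool.Agent.H852.QP

theorem log5_lt : Real.log 5 < 1.6174 := by
  have h1 : 3 * Real.log 5 < 7 * Real.log 2 := by
    have e1 : 3 * Real.log 5 = Real.log (5 ^ 3) := by
      rw [Real.log_pow]
      norm_num
    have e2 : 7 * Real.log 2 = Real.log (2 ^ 7) := by
      rw [Real.log_pow]
      norm_num
    rw [e1, e2]
    exact Real.log_lt_log (by norm_num) (by norm_num)
  have h2 := Real.log_two_lt_d9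
  linarith

theorem log5_gt : 1.5 < Real.log 5 := by
  have h1 : 2 * Real.log 2 < Real.log 5 := by
    have e2 : 2 * Real.log 2 = Real.log (2 ^ 2) := by
      rw [Real.log_pow]
      norm_num
    rw [e2]
    exact Real.log_lt_log (by norm_num) (by norm_num)
  have h3 : 9 * Real.log 2 < 4 * Real.log 5 := by
    have e1 : 4 * Real.log 5 = Real.log (5 ^ 4) := by
      rw [Real.log_pow]
      norm_num
    have e2 : 9 * Real.log 2 = Real.log (2 ^ 9) := by
      rw [Real.log_pow]
      norm_num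
    rw [e1, e2]
    exact Real.log_lt_log (by norm_num) (by norm_num)
  have h2 := Real.log_two_gt_d9
  linarith

/-- An exponent `q`, as large as possible. -/
theorem exists_exponent {a b : ℕ} (ha : 0 < a) {r : ℕ} (hr : 5 ^ b ≤ r) :
    ∃ q : ℕ, 5 ^ (a * q + b) ≤ r ∧
      (Real.log r / Real.log 5 - b - a) / a * Real.log r ≤ q * Real.log r := by
  have hl5 : 0 < Real.log 5 := Real.log_pos (by norm_num)
  have hr0 : 0 < r := lt_of_lt_of_le (by positivity) hr
  have hrR : (0 : ℝ) < r := by exact_mod_cast hr0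
  have haR : (0 : ℝ) < a := by exact_mod_cast ha
  obtain ⟨x, hx⟩ : ∃ x, x = Real.log r / Real.log 5 := ⟨_, rfl⟩
  have hxl : x * Real.log 5 = Real.log r := by
    rw [hx]
    field_simp
  have hb : (b : ℝ) * Real.log 5 ≤ Real.log r := by
    rw [← Real.log_pow]
    refine Real.log_le_log (by positivity) ?_
    exact_mod_cast hr
  have hbx : (b : ℝ) ≤ x := by
    rw [hx, le_div_iff₀ hl5]
    exact hb
  have hlog0 : 0 ≤ Real.log r := Real.log_natCast_nonneg r
  refine ⟨⌊(x - b) / a⌋₊, ?_, ?_⟩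
  · obtain ⟨q, hq⟩ : ∃ q, q = ⌊(x - b) / a⌋₊ := ⟨_, rfl⟩
    rw [← hq]
    have h1 : (q : ℝ) ≤ (x - b) / a := by
      rw [hq]
      exact Nat.floor_le (div_nonneg (by linarith) haR.le)
    rw [le_div_iff₀ haR] at h1
    have h2 : ((a * q + b : ℕ) : ℝ) * Real.log 5 ≤ Real.log r := by
      rw [← hxl]
      refine mul_le_mul_of_nonneg_right ?_ hl5.le
      push_cast
      linarith
    rw [← Real.log_pow, Real.log_le_log_iff (by positivity) hrR] at h2
    exact_mod_cast h2
  · refine mul_le_mul_of_nonneg_right ?_ hlog0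
    rw [← hx]
    have h1 : (x - b) / a < (⌊(x - b) / a⌋₊ : ℝ) + 1 := Nat.lt_floor_add_one _
    have h2 : (x - b - a) / a = (x - b) / a - 1 := by
      field_simp
    rw [h2]
    linarith

/-- The error `r ^ (-q)` is quasi-polynomially small. -/
theorem exists_q_exp {r : ℕ} (hr : 5 ^ 168 ≤ r) : ∃ q : ℕ, 5 ^ (14 * q + 28) ≤ r ∧
    2 / (r : ℝ) ^ q ≤ Real.exp (-(Real.log r ^ 2 / 31)) := by
  obtain ⟨q, h1, h2⟩ := exists_exponent (a := 14) (b := 28) (by norm_num)
    ((Nat.pow_le_pow_right (by norm_num) (by norm_num)).trans hr)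
  refine ⟨q, h1, ?_⟩
  obtain ⟨X, hX⟩ : ∃ X, X = Real.log r := ⟨_, rfl⟩
  have hr0 : 0 < r := lt_of_lt_of_le (by positivity) hr
  have hrR : (0 : ℝ) < r := by exact_mod_cast hr0
  have hl := log5_lt
  have hl' := log5_gt
  have hl5 : 0 < Real.log 5 := by linarith
  have hXl : 168 * Real.log 5 ≤ X := by
    rw [hX]
    have : (168 : ℝ) * Real.log 5 = Real.log ((5 : ℝ) ^ 168) := by
      rw [Real.log_pow]
      norm_num
    rw [this]
    refine Real.log_le_log (by positivity) ?_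
    exact_mod_cast hr
  have hX0 : 0 < X := by nlinarith
  have hX252 : 252 ≤ X := by linarith
  rw [← hX] at h2
  -- `q X ≥ X² / 31 + 1`
  have h3 : X ^ 2 / 31 + 1 ≤ q * X := by
    refine le_trans ?_ h2
    have h4 : X / 1.6174 ≤ X / Real.log 5 := div_le_div_of_nonneg_left hX0.le hl5 hl.le
    have h5 : (168 : ℝ) ≤ X / Real.log 5 := by
      rw [le_div_iff₀ hl5]
      exact hXl
    have h6 : (X / Real.log 5 - 42) / 14 ≥ X / Real.log 5 * (3 / 56) := by
      rw [ge_iff_le, le_div_iff₀ (by norm_num)]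
      linarith
    have h7 : X / 1.6174 * (3 / 56) * X ≤ (X / Real.log 5 - 42) / 14 * X := by
      refine mul_le_mul_of_nonneg_right ?_ hX0.le
      refine le_trans (mul_le_mul_of_nonneg_right h4 (by norm_num)) h6
    have h8 : (X / Real.log 5 - 42) / 14 * X =
        (X / Real.log 5 - ((28 : ℕ) : ℝ) - ((14 : ℕ) : ℝ)) / ((14 : ℕ) : ℝ) * X := by
      push_cast
      ring
    rw [← h8]
    refine le_trans ?_ h7
    have e : X / 1.6174 * (3 / 56) * X = X ^ 2 * (3 / (56 * 1.6174)) := by ring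
    rw [e]
    have h9 : (1 / 31 + 1 / 2000 : ℝ) ≤ 3 / (56 * 1.6174) := by norm_num
    have h10 := mul_le_mul_of_nonneg_left h9 (sq_nonneg X)
    have h11 : (252 : ℝ) ^ 2 ≤ X ^ 2 := pow_le_pow_left₀ (by norm_num) hX252 2
    linarith
  have h9 : (r : ℝ) ^ q = Real.exp (q * X) := by
    rw [hX, mul_comm, Real.exp_mul, Real.exp_log hrR, Real.rpow_natCast]
  rw [h9, ← hX, div_le_iff₀ (Real.exp_pos _), ← Real.exp_add]
  have h10 : (1 : ℝ) ≤ -(X ^ 2 / 31) + q * X := by linarith
  have h11 : (2 : ℝ) ≤ Real.exp 1 := by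
    have := Real.add_one_le_exp (1 : ℝ)
    linarith
  exact h11.trans (Real.exp_le_exp.2 h10)

/-- Quasi-polynomial multiplicities. -/
theorem exists_p_exp {r : ℕ} (hr : 5 ^ 168 ≤ r) : ∃ p : ℕ, 5 ^ (28 * p + 56) ≤ r ∧
    Real.exp (Real.log r ^ 2 / 92) ≤ (r : ℝ) ^ p := by
  obtain ⟨q, h1, h2⟩ := exists_exponent (a := 28) (b := 56) (by norm_num)
    ((Nat.pow_le_pow_right (by norm_num) (by norm_num)).trans hr)
  refine ⟨q, h1, ?_⟩
  obtain ⟨X, hX⟩ : ∃ X, X = Real.log r := ⟨_, rfl⟩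
  have hr0 : 0 < r := lt_of_lt_of_le (by positivity) hr
  have hrR : (0 : ℝ) < r := by exact_mod_cast hr0
  have hl := log5_lt
  have hl' := log5_gt
  have hl5 : 0 < Real.log 5 := by linarith
  have hXl : 168 * Real.log 5 ≤ X := by
    rw [hX]
    have : (168 : ℝ) * Real.log 5 = Real.log ((5 : ℝ) ^ 168) := by
      rw [Real.log_pow]
      norm_num
    rw [this]
    refine Real.log_le_log (by positivity) ?_
    exact_mod_cast hr
  have hX0 : 0 < X := by nlinarith
  rw [← hX] at h2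
  have h3 : X ^ 2 / 92 ≤ q * X := by
    refine le_trans ?_ h2
    have h4 : X / 1.6174 ≤ X / Real.log 5 := div_le_div_of_nonneg_left hX0.le hl5 hl.le
    have h5 : (168 : ℝ) ≤ X / Real.log 5 := by
      rw [le_div_iff₀ hl5]
      exact hXl
    have h6 : (X / Real.log 5 - 84) / 28 ≥ X / Real.log 5 * (1 / 56) := by
      rw [ge_iff_le, le_div_iff₀ (by norm_num)]
      linarith
    have h7 : X / 1.6174 * (1 / 56) * X ≤ (X / Real.log 5 - 84) / 28 * X := by
      refine mul_le_mul_of_nonneg_right ?_ hX0.le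
      refine le_trans (mul_le_mul_of_nonneg_right h4 (by norm_num)) h6
    have h8 : (X / Real.log 5 - 84) / 28 * X =
        (X / Real.log 5 - ((56 : ℕ) : ℝ) - ((28 : ℕ) : ℝ)) / ((28 : ℕ) : ℝ) * X := by
      push_cast
      ring
    rw [← h8]
    refine le_trans ?_ h7
    have e : X / 1.6174 * (1 / 56) * X = X ^ 2 * (1 / (56 * 1.6174)) := by ring
    rw [e]
    have h9 : (1 / 92 : ℝ) ≤ 1 / (56 * 1.6174) := by norm_num
    have h10 := mul_le_mul_of_nonneg_left h9 (sq_nonneg X)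
    linarith
  have h9 : (r : ℝ) ^ q = Real.exp (q * X) := by
    rw [hX, mul_comm, Real.exp_mul, Real.exp_log hrR, Real.rpow_natCast]
  rw [h9, ← hX]
  exact Real.exp_le_exp.2 h3

end Pool.Agent.H852.QP
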