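import Mathlib
import Pool.Agent.H519R3.AC.Wald
import Pool.Agent.H852.QP.Ratio
import Pool.Agent.H852.QP.Num

set_option autoImplicit false

/-!
# Generic points of the plane in every characteristic: explicit quasi-polynomial bounds
-/

namespace Pool.Agent.H852.QP

open MvPolynomial Pool.Agent.H932R5 Pool.Agent.H519R3.AC

universe u

/-- Emptiness at generic points of the plane, all multiplicities, every characteristic. -/
theorem emptyQ {k : Type u} [Field k] [IsAlgClosed k] {r q : ℕ} (hr : 5 ^ (14 * q + 28) ≤ r)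
    {P : Fin r → Fin 2 → k}
    (hP : AlgebraicIndependent (⊥ : Subfield k) (fun ij : Fin r × Fin 2 => P ij.1 ij.2))
    {w : Fin r → ℕ} {d : ℕ}
    (hd : (1 + 2 / (r : ℝ) ^ q) * (Real.sqrt r * d) < ((∑ i, w i : ℕ) : ℝ)) :
    EmptyAt (E := 1) w P d := by
  have hr0 : 0 < r := lt_of_lt_of_le (by positivity) hr
  have hrR : (0 : ℝ) < r := by exact_mod_cast hr0
  have hr1 : (1 : ℝ) ≤ r := by exact_mod_cast hr0
  have hss : Real.sqrt r ^ 2 = r := Real.sq_sqrt hrR.le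
  have hL1 : 1 ≤ Real.sqrt r := by
    rw [Real.one_le_sqrt]
    exact hr1
  have hrat := ratioQ q hL1 (by
    rw [hss]
    exact_mod_cast hr)
  refine emptyAt_generic (E := 1) (w := w) hP (L := Real.sqrt r) (μ := 1 + 2 / (r : ℝ) ^ q)
    (fun E t ht => ?_) hL1 ?_ ?_ ?_
  · obtain ⟨σ, h1, h2, h3, _⟩ := hrat E t ht
    rw [hss] at h3
    exact ⟨σ, h1, h2, h3⟩
  · have : 0 < 2 / (r : ℝ) ^ q := by positivity
    linarith
  · exact hss
  · rw [pow_one, pow_one, mul_assoc]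
    exact hd

theorem wald_lowQ {k : Type u} [Field k] [IsAlgClosed k] {r q : ℕ} (hr : 5 ^ (14 * q + 28) ≤ r)
    {P : Fin r → Fin 2 → k}
    (hP : AlgebraicIndependent (⊥ : Subfield k) (fun ij : Fin r × Fin 2 => P ij.1 ij.2)) (m : ℕ) :
    (m : ℝ) * Real.sqrt r ≤ (1 + 2 / (r : ℝ) ^ q) * alp P m := by
  have hr0 : 0 < r := lt_of_lt_of_le (by positivity) hr
  have hrR : (0 : ℝ) < r := by exact_mod_cast hr0
  have hs0 : 0 < Real.sqrt r := Real.sqrt_pos.2 hrR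
  have hss : Real.sqrt r * Real.sqrt r = r := Real.mul_self_sqrt hrR.le
  by_contra hcon
  push Not at hcon
  have hsum : ((∑ _i : Fin r, m : ℕ) : ℝ) = r * m := by
    rw [Finset.sum_const, Finset.card_univ, Fintype.card_fin, smul_eq_mul]
    push_cast
    ring
  have h1 : EmptyAt (E := 1) (fun _ : Fin r => m) P (alp P m) := by
    refine emptyQ hr hP ?_
    rw [hsum]
    have h2 := mul_lt_mul_of_pos_left hcon hs0
    calc (1 + 2 / (r : ℝ) ^ q) * (Real.sqrt r * (alp P m : ℝ)) =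
        Real.sqrt r * ((1 + 2 / (r : ℝ) ^ q) * alp P m) := by ring
      _ < Real.sqrt r * ((m : ℝ) * Real.sqrt r) := h2
      _ = (Real.sqrt r * Real.sqrt r) * m := by ring
      _ = r * m := by rw [hss]
  exact (hasForm_iff P m _).1 (hasForm_alp P m) h1.bot

/-- Nagata's inequality itself for small multiplicities. -/
theorem wald_exactQ {k : Type u} [Field k] [IsAlgClosed k] {r p : ℕ}
    (hr : 5 ^ (28 * p + 56) ≤ r) {P : Fin r → Fin 2 → k}
    (hP : AlgebraicIndependent (⊥ : Subfield k) (fun ij : Fin r × Fin 2 => P ij.1 ij.2)) (m : ℕ)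
    (hm : (m : ℝ) ≤ (r : ℝ) ^ p) : (m : ℝ) * Real.sqrt r ≤ alp P m := by
  have hr0 : 0 < r := lt_of_lt_of_le (by positivity) hr
  have hr6 : 6 ≤ r := by
    refine le_trans ?_ hr
    calc 6 ≤ 5 ^ 56 := by norm_num
      _ ≤ 5 ^ (28 * p + 56) := Nat.pow_le_pow_right (by norm_num) (by omega)
  have hrR : (6 : ℝ) ≤ r := by exact_mod_cast hr6
  have hrR0 : (0 : ℝ) < r := by linarith
  have hss : Real.sqrt r * Real.sqrt r = r := Real.mul_self_sqrt hrR0.le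
  have h0 := wald_lowQ (q := 2 * p + 2) (by
    have : 14 * (2 * p + 2) + 28 = 28 * p + 56 := by ring
    rw [this]
    exact hr) hP m
  by_contra hcon
  push Not at hcon
  obtain ⟨d, hd⟩ : ∃ d, d = alp P m := ⟨_, rfl⟩
  rw [← hd] at hcon h0
  obtain ⟨y, hy⟩ : ∃ y : ℝ, y = 2 / (r : ℝ) ^ (2 * p + 2) := ⟨_, rfl⟩
  rw [← hy] at h0
  have hy0 : 0 < y := by rw [hy]; positivity
  have hm0 : (0 : ℝ) ≤ m := Nat.cast_nonneg m
  have hd0 : (0 : ℝ) ≤ d := Nat.cast_nonneg d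
  have hs0 : 0 < Real.sqrt r := Real.sqrt_pos.2 hrR0
  -- `3 y r m² ≤ 1`
  have hy3 : 3 * y * (r * (m : ℝ) ^ 2) ≤ 1 := by
    have h1 : (m : ℝ) ^ 2 ≤ ((r : ℝ) ^ p) ^ 2 := pow_le_pow_left₀ hm0 hm 2
    have h2 : y * (r : ℝ) ^ (2 * p + 2) = 2 := by
      rw [hy]
      field_simp
    have h3 : (r : ℝ) * ((r : ℝ) ^ p) ^ 2 * r = (r : ℝ) ^ (2 * p + 2) := by
      ring
    have h4 : y * (r * ((r : ℝ) ^ p) ^ 2) * r = 2 := by
      rw [← h2, ← h3]
      ring
    have h5 : 0 ≤ y * (r * ((r : ℝ) ^ p) ^ 2) := by positivity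
    have h6 : y * (r * ((r : ℝ) ^ p) ^ 2) * 6 ≤ 2 := by
      rw [← h4]
      exact mul_le_mul_of_nonneg_left hrR h5
    have h7 : y * (r * (m : ℝ) ^ 2) ≤ y * (r * ((r : ℝ) ^ p) ^ 2) := by gcongr
    linarith
  have hy1 : y ≤ 1 := by
    rw [hy, div_le_one (by positivity)]
    calc (2 : ℝ) ≤ r := by linarith
      _ ≤ (r : ℝ) ^ (2 * p + 2) := le_self_pow₀ (by linarith) (by omega)
  -- integrality
  have hint : (d : ℝ) ^ 2 ≤ r * (m : ℝ) ^ 2 - 1 := by
    have h1 := mul_self_lt_mul_self hd0 hcon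
    have h2 : (m : ℝ) * Real.sqrt r * (m * Real.sqrt r) = r * (m : ℝ) ^ 2 := by
      calc (m : ℝ) * Real.sqrt r * (m * Real.sqrt r) =
          (Real.sqrt r * Real.sqrt r) * (m : ℝ) ^ 2 := by ring
        _ = _ := by rw [hss]
    rw [h2] at h1
    have h3 : d * d < r * m ^ 2 := by exact_mod_cast h1
    have h4 : d * d + 1 ≤ r * m ^ 2 := h3
    have h5 : ((d * d + 1 : ℕ) : ℝ) ≤ ((r * m ^ 2 : ℕ) : ℝ) := by exact_mod_cast h4
    push_cast at h5
    nlinarith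
  have h1 : ((m : ℝ) * Real.sqrt r) ^ 2 ≤ ((1 + y) * d) ^ 2 :=
    pow_le_pow_left₀ (by positivity) h0 2
  have h2 : ((m : ℝ) * Real.sqrt r) ^ 2 = r * (m : ℝ) ^ 2 := by
    rw [mul_pow, Real.sq_sqrt hrR0.le]
    ring
  rw [h2, mul_pow] at h1
  obtain ⟨z, hz⟩ : ∃ z : ℝ, z = r * (m : ℝ) ^ 2 := ⟨_, rfl⟩
  rw [← hz] at h1 hint hy3
  have h3 : (1 + y) ^ 2 * (d : ℝ) ^ 2 ≤ (1 + y) ^ 2 * (z - 1) :=
    mul_le_mul_of_nonneg_left hint (by positivity)
  have hz0 : 0 ≤ z := by rw [hz]; positivity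
  have h4 : y * y * z ≤ y * 1 * z := by gcongr
  nlinarith

end Pool.Agent.H852.QP
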