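import Mathlib
import Pool.Agent.H852.QP.Gen

set_option autoImplicit false

/-!
# All multiplicities, at generic points, in every characteristic
-/

namespace Pool.Agent.H852.QP

open MvPolynomial Pool.Agent.H932R5 Pool.Agent.H519R3.AC

universe u

/-- Integrality. -/
theorem sum_exact {r p M d : ℕ} (hr : 5 ^ (28 * p + 56) ≤ r) (hM : (M : ℝ) ≤ (r : ℝ) ^ p)
    (h : Real.sqrt r * d < M) : (1 + 2 / (r : ℝ) ^ (2 * p + 2)) * (Real.sqrt r * d) < (M : ℝ) := by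
  have hr6 : 6 ≤ r := by
    refine le_trans ?_ hr
    calc 6 ≤ 5 ^ 56 := by norm_num
      _ ≤ 5 ^ (28 * p + 56) := Nat.pow_le_pow_right (by norm_num) (by omega)
  have hrR : (6 : ℝ) ≤ r := by exact_mod_cast hr6
  have hrR0 : (0 : ℝ) < r := by linarith
  have hss : Real.sqrt r * Real.sqrt r = r := Real.mul_self_sqrt hrR0.le
  obtain ⟨y, hy⟩ : ∃ y : ℝ, y = 2 / (r : ℝ) ^ (2 * p + 2) := ⟨_, rfl⟩
  rw [← hy]
  have hy0 : 0 < y := by rw [hy]; positivity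
  have hM0 : (0 : ℝ) ≤ M := Nat.cast_nonneg M
  have hd0 : (0 : ℝ) ≤ d := Nat.cast_nonneg d
  have hs0 : 0 < Real.sqrt r := Real.sqrt_pos.2 hrR0
  have hy3 : 3 * y * (M : ℝ) ^ 2 ≤ 1 := by
    have h1 : (M : ℝ) ^ 2 ≤ ((r : ℝ) ^ p) ^ 2 := pow_le_pow_left₀ hM0 hM 2
    have h2 : y * (r : ℝ) ^ (2 * p + 2) = 2 := by
      rw [hy]
      field_simp
    have h3 : ((r : ℝ) ^ p) ^ 2 * (r * r) = (r : ℝ) ^ (2 * p + 2) := by ring
    have h4 : y * ((r : ℝ) ^ p) ^ 2 * (r * r) = 2 := by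
      rw [← h2, ← h3]
      ring
    have h5 : 0 ≤ y * ((r : ℝ) ^ p) ^ 2 := by positivity
    have h8 : (6 : ℝ) ≤ r * r := by nlinarith
    have h6 : y * ((r : ℝ) ^ p) ^ 2 * 6 ≤ 2 := by
      rw [← h4]
      exact mul_le_mul_of_nonneg_left h8 h5
    have h7 : y * (M : ℝ) ^ 2 ≤ y * ((r : ℝ) ^ p) ^ 2 := by gcongr
    linarith
  have hy1 : y ≤ 1 := by
    rw [hy, div_le_one (by positivity)]
    calc (2 : ℝ) ≤ r := by linarith
      _ ≤ (r : ℝ) ^ (2 * p + 2) := le_self_pow₀ (by linarith) (by omega)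
  have hint : r * (d : ℝ) ^ 2 ≤ (M : ℝ) ^ 2 - 1 := by
    have h1 := mul_self_lt_mul_self (by positivity : 0 ≤ Real.sqrt r * (d : ℝ)) h
    have h2 : Real.sqrt r * (d : ℝ) * (Real.sqrt r * d) = r * (d : ℝ) ^ 2 := by
      calc Real.sqrt r * (d : ℝ) * (Real.sqrt r * d) =
          (Real.sqrt r * Real.sqrt r) * (d : ℝ) ^ 2 := by ring
        _ = _ := by rw [hss]
    rw [h2] at h1
    have h3 : r * d ^ 2 < M * M := by exact_mod_cast h1
    have h4 : r * d ^ 2 + 1 ≤ M * M := h3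
    have h5 : ((r * d ^ 2 + 1 : ℕ) : ℝ) ≤ ((M * M : ℕ) : ℝ) := by exact_mod_cast h4
    push_cast at h5
    nlinarith
  refine lt_of_pow_lt_pow_left₀ 2 hM0 ?_
  have e : ((1 + y) * (Real.sqrt r * d)) ^ 2 = (1 + y) ^ 2 * (r * (d : ℝ) ^ 2) := by
    calc ((1 + y) * (Real.sqrt r * (d : ℝ))) ^ 2 =
        (1 + y) ^ 2 * ((Real.sqrt r * Real.sqrt r) * (d : ℝ) ^ 2) := by ring
      _ = _ := by rw [hss]
  rw [e]
  have h3 : (1 + y) ^ 2 * (r * (d : ℝ) ^ 2) ≤ (1 + y) ^ 2 * ((M : ℝ) ^ 2 - 1) :=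
    mul_le_mul_of_nonneg_left hint (by positivity)
  have h4 : y * y * (M : ℝ) ^ 2 ≤ y * 1 * (M : ℝ) ^ 2 := by gcongr
  nlinarith

/-- **All multiplicities**, in every characteristic: the conditions on the degree. -/
def Win (r : ℕ) (w : Fin r → ℕ) (d : ℕ) : Prop :=
  Real.sqrt r * d ≤ (1 - Real.exp (-(Real.log r ^ 2 / 31))) * ∑ i, (w i : ℝ) ∨
  (Real.sqrt r * d < ∑ i, (w i : ℝ) ∧ ∑ i, (w i : ℝ) ≤ Real.exp (Real.log r ^ 2 / 92)) ∨
  ∀ i, Real.sqrt r * (w i + 1) ≤ (1 - Real.exp (-(Real.log r ^ 2 / 31))) * d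

theorem finrank_win {k : Type u} [Field k] [IsAlgClosed k] {r : ℕ} (hr : 5 ^ 168 ≤ r)
    {P : Fin r → Fin 2 → k}
    (hP : AlgebraicIndependent (⊥ : Subfield k) (fun ij : Fin r × Fin 2 => P ij.1 ij.2))
    {w : Fin r → ℕ} {d : ℕ} (hd : Win r w d) :
    Module.finrank k ↥(Vd (E := 1) d w P) = (d + 2).choose 2 - ∑ i, (w i + 1).choose 2 := by
  obtain ⟨q, hq1, hq2⟩ := exists_q_exp hr
  obtain ⟨p, hp1, hp2⟩ := exists_p_exp hr
  obtain ⟨x, hx⟩ : ∃ x, x = Real.exp (-(Real.log r ^ 2 / 31)) := ⟨_, rfl⟩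
  have hx0 : 0 < x := by rw [hx]; exact Real.exp_pos _
  rw [← hx] at hq2
  unfold Win at hd
  rw [← hx] at hd
  have hr0 : 0 < r := lt_of_lt_of_le (by positivity) hr
  have hrR : (0 : ℝ) < r := by exact_mod_cast hr0
  have hs0 : 0 < Real.sqrt r := Real.sqrt_pos.2 hrR
  obtain ⟨M, hM⟩ : ∃ M, M = ∑ i, w i := ⟨_, rfl⟩
  have hMR : (M : ℝ) = ∑ i, (w i : ℝ) := by rw [hM]; push_cast; rfl
  rw [← hMR] at hd
  have hyq : 0 < 2 / (r : ℝ) ^ q := by positivity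
  rcases hd with hd | hd | hd
  · rcases Nat.eq_zero_or_pos M with h0 | h0
    · -- all multiplicities vanish
      have hw : ∀ i, w i = 0 := by
        intro i
        rw [h0] at hM
        exact (Finset.sum_eq_zero_iff.1 hM.symm) i (Finset.mem_univ i)
      have h1 := (SurjAt.of_zero (E := 1) hw P d).finrank
      have e1 : (d + 1 + 1).choose (1 + 1) = (d + 2).choose 2 := rfl
      have e2 : ∑ i, (w i + 1).choose (1 + 1) = ∑ i, (w i + 1).choose 2 := rfl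
      omega
    · have hMpos : (0 : ℝ) < M := by exact_mod_cast h0
      refine windowsQ hq1 hP (Or.inl ?_)
      rw [← hM]
      have h1 : 0 ≤ Real.sqrt r * (d : ℝ) := by positivity
      have h2 : (1 + 2 / (r : ℝ) ^ q) * (Real.sqrt r * d) ≤ (1 + x) * (Real.sqrt r * d) :=
        mul_le_mul_of_nonneg_right (by linarith) h1
      have h3 : (1 + x) * (Real.sqrt r * d) ≤ (1 + x) * ((1 - x) * M) :=
        mul_le_mul_of_nonneg_left hd (by linarith)
      have h4 : (1 + x) * ((1 - x) * (M : ℝ)) = M - x * x * M := by ring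
      have h5 : 0 < x * x * (M : ℝ) := by positivity
      linarith
  · refine windowsQ (q := 2 * p + 2) (by
      have : 14 * (2 * p + 2) + 28 = 28 * p + 56 := by ring
      rw [this]
      exact hp1) hP (Or.inl ?_)
    rw [← hM]
    exact sum_exact hp1 (hd.2.trans hp2) hd.1
  · refine windowsQ hq1 hP (Or.inr fun i => (hd i).trans ?_)
    refine mul_le_mul_of_nonneg_right ?_ (Nat.cast_nonneg d)
    have : 1 / (r : ℝ) ^ q ≤ 2 / (r : ℝ) ^ q := by
      gcongr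
      norm_num
    linarith

end Pool.Agent.H852.QP
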