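import Mathlib
import Pool.Agent.H932R6.FinalR
import Pool.Agent.H852.QP.Up

set_option autoImplicit false

/-!
# Reachable slopes very close to an integer, started at a real number: quasi-polynomial precision

The arguments of `H932R6.finishR`, `H932R6.short_auxR`, `H932R6.exists_shortR` and
`H932R6.exists_WDR`, with the dependence on the exponent made explicit.
-/

namespace Pool.Agent.H852.QP

open Pool.Agent.H932R3 Pool.Agent.H932R4 Pool.Agent.H932R6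

/-- The end of the correction. -/
theorem finishQ {δ : ℝ} {r P E k : ℕ} (C : CtxR δ r P E) (hhalf : (r : ℝ) ≤ 2 * P)
    (hZ : 2 * (8 * nL (CL (2 * k + 1)) * 2 ^ (2 * k + 4)) ≤ r ^ (k + 3)) {p : ℕ}
    (hp : P ≤ p) (hpr : p ≤ r) (hm : p % 4 = r % 4) (h : StR δ r P (CL (2 * k + 1)) p) :
    ∃ σ, ReachR δ σ ∧ 0 < (r : ℝ) - σ ∧ (r : ℝ) - σ ≤ 1 / (r : ℝ) ^ k := by
  have hP0 := C.P0
  have hr0 := C.r0
  obtain ⟨hq5, T, hT, hTl, hTu⟩ := h
  have hqpos : 0 < qL P (CL (2 * k + 1)) := by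
    unfold qL
    have : (0 : ℝ) < nL (CL (2 * k + 1)) := by exact_mod_cast nL_pos (CL_adm (2 * k + 1))
    positivity
  have hT0 : 0 < T := by linarith
  have hT5 : |T| ≤ 5 / (P : ℝ) ^ 2 := by
    rw [abs_of_pos hT0]
    linarith
  obtain ⟨σ, hσ, hlog⟩ := RS.to C.hδ C.hP C.sm (p := p) hp hm (q := r) rfl (C.tbound' hT5) hT hpr
    le_rfl
  have hlog' : Real.log σ = Real.log r - 2 * T := by
    rw [hlog]
    unfold gam
    ring
  have hσ0 : 0 < σ := hσ.pos C.hδ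
  have hσe : σ = r * Real.exp (-(2 * T)) := by
    rw [← Real.exp_log hσ0, hlog', sub_eq_add_neg, Real.exp_add, Real.exp_log hr0]
  have hexp1 : Real.exp (-(2 * T)) < 1 := by
    rw [Real.exp_lt_one_iff]
    linarith
  have hexp2 : 1 - 2 * T ≤ Real.exp (-(2 * T)) := by
    have := Real.add_one_le_exp (-(2 * T))
    linarith
  refine ⟨σ, hσ, ?_, ?_⟩
  · rw [hσe]
    have : (r : ℝ) * Real.exp (-(2 * T)) < r * 1 := mul_lt_mul_of_pos_left hexp1 hr0
    linarith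
  · have h1 : (r : ℝ) - σ ≤ 2 * r * T := by
      rw [hσe]
      have : (r : ℝ) * (1 - 2 * T) ≤ r * Real.exp (-(2 * T)) :=
        mul_le_mul_of_nonneg_left hexp2 hr0.le
      linarith
    refine h1.trans ?_
    obtain ⟨Z, hZe⟩ : ∃ Z, Z = 8 * nL (CL (2 * k + 1)) * 2 ^ (2 * k + 4) := ⟨_, rfl⟩
    rw [← hZe] at hZ
    have h2 : T ≤ (Z : ℝ) / (r : ℝ) ^ (2 * k + 4) := by
      refine hTu.trans ?_
      unfold qL
      rw [CL_length]
      have h3 : (r : ℝ) ^ (2 * k + 4) ≤ 2 ^ (2 * k + 4) * (P : ℝ) ^ (2 * k + 4) := by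
        rw [← mul_pow]
        exact pow_le_pow_left₀ hr0.le hhalf _
      have e : 2 * k + 1 + 3 = 2 * k + 4 := rfl
      rw [e, mul_div_assoc', div_le_div_iff₀ (by positivity) (by positivity), hZe]
      push_cast
      calc 2 * (4 * (nL (CL (2 * k + 1)) : ℝ)) * (r : ℝ) ^ (2 * k + 4)
          ≤ 2 * (4 * (nL (CL (2 * k + 1)) : ℝ)) * (2 ^ (2 * k + 4) * (P : ℝ) ^ (2 * k + 4)) :=
            mul_le_mul_of_nonneg_left h3 (by positivity)
        _ = 8 * (nL (CL (2 * k + 1)) : ℝ) * 2 ^ (2 * k + 4) * (P : ℝ) ^ (2 * k + 4) := by ring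
    have hZr : 2 * (Z : ℝ) ≤ (r : ℝ) ^ (k + 3) := by exact_mod_cast hZ
    calc 2 * r * T ≤ 2 * r * ((Z : ℝ) / (r : ℝ) ^ (2 * k + 4)) :=
          mul_le_mul_of_nonneg_left h2 (by positivity)
      _ = r * ((2 * Z) / (r : ℝ) ^ (2 * k + 4)) := by ring
      _ ≤ r * ((r : ℝ) ^ (k + 3) / (r : ℝ) ^ (2 * k + 4)) := by
          refine mul_le_mul_of_nonneg_left ?_ hr0.le
          exact div_le_div_of_nonneg_right hZr (by positivity)
      _ = 1 / (r : ℝ) ^ k := by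
          have e : (r : ℝ) ^ (2 * k + 4) = (r : ℝ) ^ (k + 3) * r * (r : ℝ) ^ k := by ring
          rw [e]
          field_simp

/-- The constant `Z` is quasi-polynomial. -/
theorem Z_le (k : ℕ) : 2 * (8 * nL (CL (2 * k + 1)) * 2 ^ (2 * k + 4)) ≤
    5 ^ (36 * (k + 1) * (k + 3)) := by
  have h0 : nL (CL (2 * k + 1)) = shQ (2 * k + 1) * (2 * k + 3).factorial := by
    unfold nL
    rw [CL_prod, CL_length]
  have h1 := shQ_le (2 * k + 1)
  have h2 : (2 * k + 3).factorial ≤ 5 ^ ((k + 1) * (2 * k + 3)) := by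
    have h1 : 2 * k + 3 ≤ 5 ^ (k + 1) := by
      induction k with
      | zero => norm_num
      | succ k ih =>
        have : 5 ^ (k + 1 + 1) = 5 * 5 ^ (k + 1) := by ring
        have ih' := ih (by
          unfold nL
          rw [CL_prod, CL_length]) (shQ_le _)
        omega
    calc (2 * k + 3).factorial ≤ (2 * k + 3) ^ (2 * k + 3) := Nat.factorial_le_pow _
      _ ≤ (5 ^ (k + 1)) ^ (2 * k + 3) := Nat.pow_le_pow_left h1 _
      _ = 5 ^ ((k + 1) * (2 * k + 3)) := by rw [← pow_mul]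
  have h3 : 2 ^ (2 * k + 4) ≤ 5 ^ (2 * k + 4) := Nat.pow_le_pow_left (by norm_num) _
  rw [h0]
  calc 2 * (8 * (shQ (2 * k + 1) * (2 * k + 3).factorial) * 2 ^ (2 * k + 4))
      = 16 * (shQ (2 * k + 1) * (2 * k + 3).factorial) * 2 ^ (2 * k + 4) := by ring
    _ ≤ 5 ^ 2 * (5 ^ ((2 * k + 1) ^ 2 + 5 * (2 * k + 1) + 1) * 5 ^ ((k + 1) * (2 * k + 3))) *
        5 ^ (2 * k + 4) :=
        Nat.mul_le_mul (Nat.mul_le_mul (by norm_num) (Nat.mul_le_mul h1 h2)) h3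
    _ = 5 ^ (2 + ((2 * k + 1) ^ 2 + 5 * (2 * k + 1) + 1 + (k + 1) * (2 * k + 3)) +
        (2 * k + 4)) := by simp only [← pow_add]
    _ ≤ 5 ^ (36 * (k + 1) * (k + 3)) := Nat.pow_le_pow_right (by norm_num) (by nlinarith)

/-- The correction, with all the numerical data. -/
theorem short_auxQ (h12 : P_BL12) (h3 : P_BL3) {k E B r a N : ℕ} {δ : ℝ} (hE : E = 2 * k + 10)
    (hB1 : B ^ 18 ≤ r) (hrB : r ≤ 2 * B ^ 18)
    (hB1000 : 1000 ≤ B) (hshi : shi (2 * k + 1) + 10 ≤ B) (hK : 2 * k + 4 ≤ B) (C : CtxR δ r a E)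
    (hPr : 100 * (r : ℝ) ^ 4 ≤ 101 * (a : ℝ) ^ 4)
    (hhalf : (r : ℝ) ≤ 2 * (a : ℝ)) (hmod : a % 4 = r % 4) (hy1 : δ ^ 2 ≤ a)
    (hy2 : (a : ℝ) - δ ^ 2 ≤ 1 / 1000) (hyN : (a : ℝ) * (a - δ ^ 2) ≤ (N : ℝ) ^ 2)
    (hN : 1000000 * N ^ 2 ≤ a) (hN1 : 1 ≤ N)
    (hgap : a + 16 * N + 100 + 8 * B ^ 6 + (lenL (2 * k) + 70) * B ^ 8 ≤ r) :
    ∃ σ, ReachR δ σ ∧ 0 < (r : ℝ) - σ ∧ (r : ℝ) - σ ≤ 1 / (r : ℝ) ^ k := by
  obtain ⟨K, hKk⟩ : ∃ K, K = 2 * k := ⟨_, rfl⟩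
  have hZ : 2 * (8 * nL (CL (2 * k + 1)) * 2 ^ (2 * k + 4)) ≤ r ^ (k + 3) := by
    refine (Z_le k).trans ?_
    rw [pow_mul]
    refine Nat.pow_le_pow_left (le_trans ?_ hB1) _
    have h5 : 5 ^ (2 * (k + 1)) ≤ B := by
      have : shi (2 * k + 1) = 10 * 5 ^ (2 * k + 4) := rfl
      have h6 : 5 ^ (2 * (k + 1)) ≤ 5 ^ (2 * k + 4) := Nat.pow_le_pow_right (by norm_num) (by omega)
      omega
    calc 5 ^ (36 * (k + 1)) = (5 ^ (2 * (k + 1))) ^ 18 := by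
          rw [← pow_mul]
          congr 1
          ring
      _ ≤ B ^ 18 := Nat.pow_le_pow_left h5 18
  rw [← hKk] at hE hshi hK hgap
  have hB8 : 1 ≤ B ^ 8 := Nat.one_le_pow _ _ (by omega)
  have hB8' : B ≤ B ^ 8 := by
    calc B = B ^ 1 := (pow_one _).symm
      _ ≤ B ^ 8 := Nat.pow_le_pow_right (by omega) (by norm_num)
  have e1 : (lenL K + 70) * B ^ 8 = lenL K * B ^ 8 + 70 * B ^ 8 := by ring
  rw [e1] at hgap
  have hrP : r ≤ 2 * a := by
    have h1 : (r : ℝ) ≤ ((2 * a : ℕ) : ℝ) := by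
      push_cast
      exact hhalf
    exact_mod_cast h1
  obtain ⟨p0, Ts, hp0, hp0', hm0, hRR0, hTl, hTu⟩ := h12 δ r a E N C hmod hPr hy1 hy2 hyN hN hN1
    (by omega)
  obtain ⟨p1, T0, hp1, hp1', hm1, hRR, hT0l, hT0u⟩ := h3 δ r a E B p0 Ts C hB1000 hB1 hrB hPr hp0
    hm0 (by omega) hRR0 hTl hTu
  have hm2 : (lenL K * B ^ 8) % 4 = 0 := by
    rw [Nat.mul_mod, lenL_mod K]
    simp
  have hshi1 : shi 1 ≤ shi (K + 1) := shi_mono (by omega)
  obtain ⟨b, hb⟩ : ∃ b, b = B ^ 8 := ⟨_, rfl⟩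
  obtain ⟨l, hl⟩ : ∃ l, l = lenL K * B ^ 8 := ⟨_, rfl⟩
  rw [← hl] at hgap hm2
  rw [← hb] at hgap hB8 hB8'
  obtain ⟨T1, hRR1, hT1l, hT1u⟩ := initialR C (B := B) (by omega) hB1 hrB hPr (by omega) hm1
    (by rw [← hb]; omega) hT0l hT0u hRR
  rw [← hb] at hRR1
  have hst := secondR C (q := p1 + 48 * b) (by omega) hB1000 hB1 hPr hhalf (p := p1 + 32 * b)
    (by omega) (by omega) (by omega) (by rw [← hb]; omega) (by omega) hT1l hT1u hRR1
  have hst1 := StR.lvl23 C (k := 0) (B := B) (p := p1 + 48 * b) (q := p1 + 56 * b)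
    (by omega) (by show shi 1 + 10 ≤ B; omega) (by omega) (by omega) (by omega)
    (by rw [← hb]; omega) (by omega) hst
  have hst2 := StR.levels C (B := B) (by omega) (by omega) (p := p1 + 56 * b) (by omega)
    (by omega) hst1 K (by omega) (by omega) (by omega) (by rw [← hl]; omega)
  rw [← hl, hKk] at hst2
  exact finishQ C hhalf hZ (by omega) (by omega) (by omega) hst2

theorem lenL_le (K : ℕ) : lenL K ≤ 24 * shi K := by
  induction K with
  | zero => simp [lenL]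
  | succ K ih =>
    have h : shi (K + 1) = 5 * shi K := by
      unfold shi
      ring
    rw [h, lenL]
    omega

/-- **Reachable slopes very close to every large integer, started at a real number whose square is
just below an integer.** -/
theorem exists_shortQ (h12 : P_BL12) (h3 : P_BL3) {c η : ℝ} (hc : 0 < c) (hη : 0 < η)
    (hη1 : η ≤ 1 / 10000000) (hηc : 1024 * η ≤ c ^ 2) :
    ∃ N : ℕ, ∀ (k r a : ℕ) (δ : ℝ), N * 5 ^ (36 * k) ≤ r → 0 < δ → a % 4 = r % 4 →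
      (r - a) ^ 2 ≤ 81 * r →
      δ ^ 2 ≤ a → (a : ℝ) - δ ^ 2 ≤ η → (a : ℝ) + c * Real.sqrt r ≤ r →
      ∃ σ, ReachR δ σ ∧ 0 < (r : ℝ) - σ ∧ (r : ℝ) - σ ≤ 1 / (r : ℝ) ^ k := by
  obtain ⟨C1, hC1⟩ : ∃ C1 : ℕ, 60800 / c ≤ C1 := exists_nat_ge _
  obtain ⟨C2, hC2⟩ : ∃ C2, C2 = C1 + 6250 + 2000100000 + 10 := ⟨_, rfl⟩
  refine ⟨C2 ^ 18, fun k r a δ hr hδ0 hmod ha hy1 hy2 hroom => ?_⟩
  obtain ⟨f, hf⟩ : ∃ f, f = 5 ^ (2 * k) := ⟨_, rfl⟩
  have hf1 : 1 ≤ f := by rw [hf]; exact Nat.one_le_pow _ _ (by norm_num)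
  have hfk : 2 * k ≤ f := by
    rw [hf]
    exact (Nat.lt_pow_self (by norm_num : 1 < 5)).le
  obtain ⟨W, hW⟩ : ∃ W, W = 2000000000 + (18 * (2 * k + 10)) ^ 2 + 4096 * (2 * k + 10 + 3) :=
    ⟨_, rfl⟩
  have hWf : W ≤ 2000100000 * f := by
    have h1 : 2 * k + 10 ≤ 10 * 5 ^ k := by
      clear hr hf hf1 hfk hW
      induction k with
      | zero => norm_num
      | succ k ih =>
        have : 5 ^ (k + 1) = 5 * 5 ^ k := by ring
        omega
    have h2 : (18 * (2 * k + 10)) ^ 2 ≤ 32400 * f := by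
      calc (18 * (2 * k + 10)) ^ 2 ≤ (18 * (10 * 5 ^ k)) ^ 2 :=
            Nat.pow_le_pow_left (Nat.mul_le_mul_left _ h1) 2
        _ = 32400 * f := by rw [hf]; ring
    have h3 : 4096 * (2 * k + 10 + 3) ≤ 57344 * f := by omega
    omega
  have hW0 : 2000000000 ≤ W := by
    rw [hW, add_assoc]
    exact Nat.le_add_right _ _
  have hr' : (C2 * f) ^ 18 ≤ r := by
    refine le_trans (le_of_eq ?_) hr
    rw [mul_pow, hf, ← pow_mul]
    congr 2
    ring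
  obtain ⟨B, hB1, hB2⟩ := exists_root r
  have hBC : C2 * f < B + 1 := by
    by_contra hcon
    push Not at hcon
    have h1 : (B + 1) ^ 18 ≤ (C2 * f) ^ 18 := Nat.pow_le_pow_left hcon 18
    exact absurd (lt_of_lt_of_le hB2 (h1.trans hr')) (lt_irrefl _)
  clear hr hr'
  have hC2f : C2 * f = C1 * f + 6250 * f + 2000100000 * f + 10 * f := by
    rw [hC2]
    ring
  rw [hC2f] at hBC
  have hshi : shi (2 * k + 1) = 6250 * f := by
    unfold shi
    rw [hf]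
    ring
  have hWB : W ≤ B := by omega
  have hCB : C1 * f ≤ B := by omega
  have hsB : shi (2 * k + 1) + 10 ≤ B := by omega
  have hKB : 2 * k + 4 ≤ B := by omega
  have hBr : B ≤ r := by
    calc B = B ^ 1 := (pow_one _).symm
      _ ≤ B ^ 18 := Nat.pow_le_pow_right (le_trans (by norm_num) (hW0.trans hWB))
        (by norm_num)
      _ ≤ r := hB1
  have h1000 : 1000 ≤ B := le_trans (by norm_num) (hW0.trans hWB)
  have hWr : W ≤ r := hWB.trans hBr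
  have hs0 : 0 ≤ Real.sqrt r := Real.sqrt_nonneg _
  have harR : (a : ℝ) ≤ r := by
    have : 0 ≤ c * Real.sqrt r := mul_nonneg hc.le hs0
    linarith
  have har : a ≤ r := by exact_mod_cast harR
  obtain ⟨C, hPr, hhalf⟩ := ctx_ofR (r := r) (E := 2 * k + 10) hδ0 har ha (by
    rw [← hW]
    exact hWr)
  have hrB : r ≤ 2 * B ^ 18 := hB2.le.trans (root_double (le_trans (by norm_num) h1000))
  have hrR : (2000000000 : ℝ) ≤ r := by
    have h1 : ((2000000000 : ℕ) : ℝ) ≤ (r : ℝ) := Nat.cast_le.2 (hW0.trans hWr)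
    rwa [Nat.cast_ofNat] at h1
  obtain ⟨N, hNpos, hNsq1, hNsq2, hroomN⟩ := short_num hc hη hη1 hηc (a := a) (r := r)
    (by linarith) harR
  have hlen : lenL (2 * k) + 400 ≤ 30400 * f := by
    have h1 := lenL_le (2 * k)
    have h2 : shi (2 * k) = 1250 * f := by
      unfold shi
      rw [hf]
      ring
    omega
  have hCc : 2 * ((lenL (2 * k) : ℝ) + 400) / c ≤ ((C1 * f : ℕ) : ℝ) := by
    have h1 : ((lenL (2 * k) + 400 : ℕ) : ℝ) ≤ ((30400 * f : ℕ) : ℝ) := Nat.cast_le.2 hlen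
    push_cast at h1 ⊢
    rw [div_le_iff₀ hc] at hC1 ⊢
    have h2 : (0 : ℝ) ≤ f := Nat.cast_nonneg f
    calc 2 * ((lenL (2 * k) : ℝ) + 400) ≤ 60800 * f := by linarith
      _ ≤ (C1 * c) * f := mul_le_mul_of_nonneg_right hC1 h2
      _ = C1 * f * c := by ring
  have hgap := short_gap (l := lenL (2 * k)) hc (le_trans (by norm_num) h1000)
    (Nat.cast_le.2 hCB) hCc hB1 hroomN hroom
  refine short_auxQ h12 h3 (N := N) rfl hB1 hrB h1000 hsB hKB C hPr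
    hhalf hmod hy1 (hy2.trans (hη1.trans (by norm_num))) ?_ ?_ hNpos hgap
  · calc (a : ℝ) * (a - δ ^ 2) ≤ a * η := mul_le_mul_of_nonneg_left hy2 (Nat.cast_nonneg _)
      _ = η * a := mul_comm _ _
      _ ≤ _ := hNsq1
  · exact_mod_cast hNsq2

end Pool.Agent.H852.QP
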