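import Mathlib
import Pool.Agent.H852.QP.Short

set_option autoImplicit false

/-!
# The data for all degrees except at most one: quasi-polynomial multiplicities
-/

namespace Pool.Agent.H852.QP

open Pool.Agent.H932R2 Pool.Agent.H932R3 Pool.Agent.H932R4 Pool.Agent.H932R6

theorem exists_WDRQ (h12 : P_BL12) (hb3 : P_BL3) (hNT : P_NT) {ε : ℝ} (hε : 0 < ε)
    (hε1 : ε ≤ 1) : ∃ N : ℕ, 100 ≤ N ∧ ∀ n k : ℕ, N * 5 ^ (36 * k) ≤ n →
      ∃ (u v : ℕ) (δ σ : ℝ), WDR n k ε u v δ σ := by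
  obtain ⟨e, he⟩ : ∃ e, e = ε / 8 := ⟨_, rfl⟩
  have he0 : 0 < e := by rw [he]; positivity
  have he8 : e ≤ 1 / 8 := by rw [he]; linarith
  have he2 : e ^ 2 ≤ 1 := by nlinarith
  obtain ⟨η, hη⟩ : ∃ η, η = e ^ 2 / 100000000 := ⟨_, rfl⟩
  have hη0 : 0 < η := by rw [hη]; positivity
  have hη1 : η ≤ 1 / 10000000 := by rw [hη]; linarith
  obtain ⟨N1, hN1⟩ := hNT e η he0 (by linarith) hη0 (by linarith)
  obtain ⟨N2, hN2⟩ := exists_shortQ h12 hb3 (c := e / 2) (η := η) (by positivity) hη0 hη1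
    (by rw [hη]; nlinarith)
  obtain ⟨N3, hN3⟩ : ∃ N3 : ℕ, (64 + 60 / e) ^ 2 ≤ N3 := exists_nat_ge _
  refine ⟨(N1 + N2 + N3 + 100) * 5 ^ 36, by omega, fun n k hn' => ?_⟩
  have e36 : (N1 + N2 + N3 + 100) * 5 ^ 36 * 5 ^ (36 * k) =
      (N1 + N2 + N3 + 100) * 5 ^ (36 * (k + 1)) := by
    rw [mul_assoc, ← pow_add]
    congr 2
    ring
  rw [e36] at hn'
  have hn : N1 + N2 + N3 + 100 ≤ n :=
    (Nat.le_mul_of_pos_right _ (by positivity)).trans hn'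
  have hn2 : N2 * 5 ^ (36 * (k + 1)) ≤ n :=
    (Nat.mul_le_mul_right _ (by omega)).trans hn'
  clear hn' e36
  have hn3 : (N3 : ℝ) ≤ n := by exact_mod_cast (show N3 ≤ n by omega)
  have hn0 : (0 : ℝ) < n := by exact_mod_cast (show 0 < n by omega)
  obtain ⟨s, hs⟩ : ∃ s, s = Real.sqrt n := ⟨_, rfl⟩
  have hss : s * s = n := by rw [hs]; exact Real.mul_self_sqrt hn0.le
  have h60 : 0 < 60 / e := by positivity
  have hs64 : 64 + 60 / e ≤ s := by
    rw [hs]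
    apply Real.le_sqrt_of_sq_le
    exact hN3.trans hn3
  have hs0 : 0 < s := by linarith
  have hse : 60 ≤ e * s := by
    have h1 : 60 / e ≤ s := by linarith
    rw [div_le_iff₀ he0] at h1
    linarith
  obtain ⟨u, v, a, hv, hvv, hmod, hl, hu, hal, hau⟩ := hN1 n (by omega)
  rw [← hs] at hvv hl hu
  obtain ⟨δ, hδ⟩ : ∃ δ : ℝ, δ = (u : ℝ) / v := ⟨_, rfl⟩
  rw [← hδ] at hl hu hal hau
  have hvR : (0 : ℝ) < v := by exact_mod_cast hv
  have hδ0 : 0 < δ := by linarith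
  have hu0 : 0 < u := by
    rcases Nat.eq_zero_or_pos u with h | h
    · rw [h, Nat.cast_zero, zero_div] at hδ
      linarith
    · exact h
  obtain ⟨hroom', hgap'⟩ := num_room (η := η) he0 he8 (by rw [hη]; nlinarith) hse hs0 hδ0 hl hu hal
    (by linarith)
  have hroom : (a : ℝ) + e / 2 * s ≤ n := by
    rw [← hss]
    exact hroom'
  have haR : (a : ℝ) ≤ n := by
    have : 0 < e / 2 * s := by positivity
    linarith
  have han : a ≤ n := by exact_mod_cast haR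
  have hgap : (n - a) ^ 2 ≤ 81 * n := by
    have h1 : ((n - a : ℕ) : ℝ) ≤ 9 * s := by
      rw [Nat.cast_sub han, ← hss]
      exact hgap'
    have h2 : ((n - a : ℕ) : ℝ) ^ 2 ≤ 81 * n := by
      calc ((n - a : ℕ) : ℝ) ^ 2 ≤ (9 * s) ^ 2 := pow_le_pow_left₀ (Nat.cast_nonneg _) h1 2
        _ = 81 * n := by rw [← hss]; ring
    exact_mod_cast h2
  obtain ⟨σ, hσ, hσ1, hσ2⟩ := hN2 (k + 1) n a δ hn2 hδ0 hmod hgap (by linarith) (by linarith)
    (by rw [← hs]; exact hroom)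
  have hn100 : (100 : ℝ) ≤ n := by exact_mod_cast (show 100 ≤ n by omega)
  have hn1 : (1 : ℝ) ≤ n := by linarith
  have hpow1 : (1 : ℝ) ≤ (n : ℝ) ^ k := one_le_pow₀ hn1
  have hinv : 1 / (n : ℝ) ^ (k + 1) ≤ 1 / n := by
    refine one_div_le_one_div_of_le hn0 ?_
    calc (n : ℝ) = 1 * n := (one_mul _).symm
      _ ≤ (n : ℝ) ^ k * n := mul_le_mul_of_nonneg_right hpow1 hn0.le
      _ = (n : ℝ) ^ (k + 1) := (pow_succ _ _).symm
  have hinv1 : 1 / (n : ℝ) ≤ 1 := by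
    rw [div_le_one hn0]
    exact hn1
  have habs : |σ - n| = n - σ := by rw [abs_sub_comm, abs_of_pos hσ1]
  refine ⟨u, v, δ, σ, hv, hu0, by rw [← hs]; linarith, ?_, hδ, hσ, ?_, ?_, ?_, ?_, ?_⟩
  · rw [← hs]
    have : e * s ≤ 1 / 8 * s := mul_le_mul_of_nonneg_right he8 hs0.le
    linarith
  · rw [habs]
    linarith
  · intro M hM
    have hMR : (M : ℝ) ≤ (n : ℝ) ^ k := by exact_mod_cast hM
    rw [habs]
    have h1 : (M : ℝ) * (n - σ) ≤ (n : ℝ) ^ k * (1 / (n : ℝ) ^ (k + 1)) :=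
      mul_le_mul hMR hσ2 hσ1.le (by positivity)
    have h2 : (n : ℝ) ^ k * (1 / (n : ℝ) ^ (k + 1)) = 1 / n := by
      rw [pow_succ]
      field_simp
    have h3 : 1 ≤ Real.sqrt σ := by
      rw [Real.one_le_sqrt]
      have : 1 / (n : ℝ) ^ (k + 1) ≤ 1 := hinv.trans hinv1
      linarith
    have h4 : 1 / (n : ℝ) ≤ Real.sqrt σ / (16 * δ) := by
      rw [div_le_div_iff₀ hn0 (by positivity), one_mul]
      calc 16 * δ ≤ s * s := mul_le_mul (by linarith) (by linarith) hδ0.le hs0.le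
        _ = 1 * n := by rw [hss, one_mul]
        _ ≤ Real.sqrt σ * n := mul_le_mul_of_nonneg_right h3 hn0.le
    rw [h2] at h1
    exact h1.trans h4
  · rw [← hs]
    linarith
  · rw [← hs]
    linarith
  · rw [← hs]
    have h1 : (2 * (v : ℝ) ^ 2 + 15) / δ ≤ 5 * e := by
      rw [div_le_iff₀ hδ0]
      have h5 : 5 * e * (s - e) ≤ 5 * e * δ := mul_le_mul_of_nonneg_left hl (by positivity)
      have h6 : 5 * e * (s - e) = 5 * (e * s) - 5 * e ^ 2 := by ring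
      linarith
    have h2 : ε = 8 * e := by rw [he]; ring
    linarith


/-- The data exist. -/
theorem exists_dataQ {ε : ℝ} (hε : 0 < ε) : ∃ N : ℕ, 100 ≤ N ∧ ∀ n k : ℕ, N * 5 ^ (36 * k) ≤ n →
    ∃ (u v : ℕ) (δ σ : ℝ), WDR n k (min ε 1) u v δ σ :=
  exists_WDRQ A_BL12 T_BL3 A_NT (lt_min hε one_pos) (min_le_right _ _)

end Pool.Agent.H852.QP
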