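import Mathlib
import Pool.Agent.H852.QP.Num

set_option autoImplicit false

/-!
# Quasi-polynomial multiplicities
-/

namespace Pool.Agent.H852.QP

theorem exists_kQ (N : ℕ) (hN : 1 ≤ N) : ∃ N' : ℕ, N ≤ N' ∧ 100 ≤ N' ∧ ∀ n : ℕ, N' ≤ n →
    ∃ k : ℕ, N * 5 ^ (36 * k) ≤ n ∧
      ∀ m : ℕ, (m : ℝ) ≤ Real.exp (Real.log n ^ 2 / 64) → m + 1 ≤ n ^ k := by
  obtain ⟨N', hN'⟩ := exists_nat_ge (Real.exp (2000 + 35 * Real.log N))
  have hNR : (1 : ℝ) ≤ N := by exact_mod_cast hN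
  have hN0 : (0 : ℝ) < N := by linarith
  have hlogN : 0 ≤ Real.log N := Real.log_nonneg hNR
  refine ⟨N' + N + 100, by omega, by omega, fun n hn => ?_⟩
  have hn1 : (N' : ℝ) ≤ n := by exact_mod_cast (show N' ≤ n by omega)
  have hn0 : (0 : ℝ) < n := by exact_mod_cast (show 0 < n by omega)
  obtain ⟨X, hX⟩ : ∃ X, X = Real.log n := ⟨_, rfl⟩
  have hXl : 2000 + 35 * Real.log N ≤ X := by
    rw [hX, Real.le_log_iff_exp_le hn0]
    exact hN'.trans hn1
  have hX2000 : 2000 ≤ X := by linarith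
  have hl := log5_lt
  have hl' := log5_gt
  rw [← hX]
  obtain ⟨k, hk⟩ : ∃ k, k = ⌊X / 60⌋₊ := ⟨_, rfl⟩
  have hk1 : (k : ℝ) ≤ X / 60 := by
    rw [hk]
    exact Nat.floor_le (by positivity)
  have hk2 : X / 60 < k + 1 := by
    rw [hk]
    exact Nat.lt_floor_add_one _
  have hk0 : (0 : ℝ) ≤ k := Nat.cast_nonneg k
  refine ⟨k, ?_, fun m hm => ?_⟩
  · have h1 : Real.log ((N : ℝ) * 5 ^ (36 * k)) ≤ X := by
      rw [Real.log_mul hN0.ne' (by positivity), Real.log_pow]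
      push_cast
      have h2 : 36 * (k : ℝ) * Real.log 5 ≤ 36 * (X / 60) * 1.6174 := by
        have h3 : 36 * (k : ℝ) ≤ 36 * (X / 60) := by linarith
        exact mul_le_mul h3 hl.le (by linarith) (by linarith)
      linarith
    rw [hX, Real.log_le_log_iff (by positivity) hn0] at h1
    exact_mod_cast h1
  · have h1 : (m : ℝ) + 1 ≤ (n : ℝ) ^ k := by
      have h2 : (n : ℝ) ^ k = Real.exp (k * X) := by
        rw [hX, mul_comm, Real.exp_mul, Real.exp_log hn0, Real.rpow_natCast]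
      rw [h2]
      have h3 : X ^ 2 / 64 + 1 ≤ k * X := by
        have h4 : (X / 60 - 1) * X ≤ k * X :=
          mul_le_mul_of_nonneg_right (by linarith) (by linarith)
        nlinarith
      have h5 : 1 ≤ Real.exp (X ^ 2 / 64) := Real.one_le_exp (by positivity)
      have h6 : (2 : ℝ) ≤ Real.exp 1 := by
        have := Real.add_one_le_exp (1 : ℝ)
        linarith
      have h7 : Real.exp (X ^ 2 / 64) * 2 ≤ Real.exp (X ^ 2 / 64 + 1) := by
        rw [Real.exp_add]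
        exact mul_le_mul_of_nonneg_left h6 (Real.exp_pos _).le
      have h8 := Real.exp_le_exp.2 h3
      linarith
    have h2 : ((m + 1 : ℕ) : ℝ) ≤ ((n ^ k : ℕ) : ℝ) := by
      push_cast
      exact h1
    exact_mod_cast h2

end Pool.Agent.H852.QP
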