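import Mathlib
import Pool.Agent.H932R5.Points
import Pool.Agent.H852.QP.Data
import Pool.Agent.H852.QP.NumK

set_option autoImplicit false

/-!
# Near-uniform multiplicities, quasi-polynomial in the number of points
-/

namespace Pool.Agent.H852.QP

open MvPolynomial Pool.Agent.H932R5

theorem finrank_hom {K : Type*} [Field K] (d : ℕ) :
    Module.finrank K ↥(homogeneousSubmodule (Fin 3) K d) = (d + 2).choose 2 := by
  obtain ⟨a, h1, _, h3⟩ := finrank_aux (E := 1) (K := K) d (fun i : Fin 0 => i.elim0)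
    (fun i : Fin 0 => i.elim0)
  rw [Finset.univ_eq_empty, Finset.sum_empty] at h1
  have h4 : Vd (E := 1) (K := K) d (fun i : Fin 0 => i.elim0) (fun i : Fin 0 => i.elim0) =
      homogeneousSubmodule (Fin 3) K d := by
    refine le_antisymm inf_le_left (le_inf le_rfl fun x _ => ?_)
    rw [Submodule.restrictScalars_mem, Ideal.mem_iInf]
    exact fun i => i.elim0
  rw [h4] at h3
  have h5 : (d + 1 + 1).choose (1 + 1) = (d + 2).choose 2 := rfl
  have h6 : a = 0 := Nat.le_zero.1 h1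
  rw [h6, zero_add, h5] at h3
  exact h3

/-- **All degrees but one, near-uniform multiplicities up to `exp ((log n) ^ 2 / 64)`.** -/
theorem near_uniformQ {ε : ℝ} (hε : 0 < ε) : ∃ N : ℕ, 100 ≤ N ∧ ∀ (L : Type) [Field L] [CharZero L]
    (n : ℕ), N ≤ n → ∀ m : ℕ, 0 < m → (m : ℝ) ≤ Real.exp (Real.log n ^ 2 / 64) →
    ∀ w : Fin n → ℕ, (∀ i, w i = m ∨ w i = m + 1) →
    ∃ F : MvPolynomial (Fin n × Fin 2) ℚ, F ≠ 0 ∧
      ∀ P : Fin n → Fin 2 → L,
        MvPolynomial.aeval (fun ij : Fin n × Fin 2 => P ij.1 ij.2) F ≠ 0 →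
        ∀ d : ℕ, ε ≤ |2 * (d : ℝ) + 3 - Real.sqrt n - 2 * (∑ a, (w a : ℝ)) / Real.sqrt n| →
          H932R3.ExpDim L w P d := by
  obtain ⟨N, hN100, hN⟩ := exists_dataQ hε
  obtain ⟨N', hNN', hN'100, hN'⟩ := exists_kQ N (by omega)
  refine ⟨N', hN'100, fun L _ _ n hn m hm hmX w hw => ?_⟩
  obtain ⟨k, hk1, hk2⟩ := hN' n hn
  obtain ⟨u, v, δ, σ, hD⟩ := hN n k hk1
  exact H932R6.win_expR (L := L) hD (by omega) hm (hk2 m hmX) hw

end Pool.Agent.H852.QP
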