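import Mathlib
import Pool.Agent.H852.QP.Hom
import Pool.Agent.H852.QP.Gen

set_option autoImplicit false

/-!
# Curves with near-uniform multiplicities at many of the points are far from negative
-/

namespace Pool.Agent.H852.QP

open MvPolynomial

/-- Outside countably many hypersurfaces all coordinates are algebraically independent over `ℚ`. -/
theorem exists_familyQ (σ : Type) [Finite σ] : ∃ F : ℕ → MvPolynomial σ ℂ, (∀ j, F j ≠ 0) ∧
    ∀ x : σ → ℂ, (∀ j, eval x (F j) ≠ 0) → AlgebraicIndependent ℚ x := by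
  classical
  have hc : Countable (MvPolynomial σ ℚ) := by
    rw [← Cardinal.mk_le_aleph0_iff]
    refine MvPolynomial.cardinalMk_le_max.trans ?_
    simp only [max_le_iff]
    exact ⟨⟨Cardinal.mk_le_aleph0, Cardinal.mk_le_aleph0⟩, le_rfl⟩
  have hne : Nonempty {f : MvPolynomial σ ℚ // f ≠ 0} := ⟨⟨1, one_ne_zero⟩⟩
  obtain ⟨g, hg⟩ := exists_surjective_nat {f : MvPolynomial σ ℚ // f ≠ 0}
  refine ⟨fun j => (g j).1.map (algebraMap ℚ ℂ), fun j h0 => (g j).2
    (MvPolynomial.map_injective (algebraMap ℚ ℂ) (algebraMap ℚ ℂ).injective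
      (h0.trans (map_zero _).symm)), fun x hx => ?_⟩
  rw [algebraicIndependent_iff]
  intro p hp
  by_contra hne0
  obtain ⟨j, hj⟩ := hg ⟨p, hne0⟩
  refine hx j ?_
  show eval x ((g j).1.map (algebraMap ℚ ℂ)) = 0
  rw [hj, eval_map]
  exact hp

/-- The numerical part. -/
theorem neg_num {t m S Q d : ℝ} (ht : 10000 ≤ t) (hm : 1 ≤ m) (hS1 : t * m ≤ S)
    (_hS2 : S ≤ t * (m + 1)) (hQ : Q = (2 * m + 1) * S - t * (m * (m + 1))) (_hd : 0 ≤ d)
    (h : 1 ≤ |2 * d + 3 - Real.sqrt t - 2 * S / Real.sqrt t| → Q + S ≤ d ^ 2 + 3 * d) :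
    Q + S / 2 ≤ d ^ 2 := by
  have ht0 : 0 < t := by linarith
  obtain ⟨s, hs⟩ : ∃ s, s = Real.sqrt t := ⟨_, rfl⟩
  rw [← hs] at h
  have hss : s * s = t := by rw [hs]; exact Real.mul_self_sqrt ht0.le
  have hs100 : 100 ≤ s := by
    rw [hs]
    apply Real.le_sqrt_of_sq_le
    linarith
  have hs0 : 0 < s := by linarith
  have hS0 : 0 < S := by nlinarith
  have htS : t ≤ S := by nlinarith
  obtain ⟨z, hz⟩ : ∃ z, z = S / s := ⟨_, rfl⟩
  have hzs : z * s = S := by rw [hz]; field_simp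
  have hz0 : 0 < z := by rw [hz]; positivity
  have e1 : 2 * S / s = 2 * z := by rw [hz]; ring
  rw [e1] at h
  -- `Q ≤ z² + t / 4`
  have hQz : Q ≤ z ^ 2 + t / 4 := by
    have h1 : z ^ 2 * t = S ^ 2 := by rw [← hzs, ← hss]; ring
    have h2 : (z ^ 2 + t / 4 - Q) * t = (S - t * m - t / 2) ^ 2 := by
      rw [hQ]
      linear_combination h1
    by_contra hcon
    push Not at hcon
    have h3 : (z ^ 2 + t / 4 - Q) * t < 0 := mul_neg_of_neg_of_pos (by linarith) ht0
    have h4 : 0 ≤ (S - t * m - t / 2) ^ 2 := sq_nonneg _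
    linarith
  have hz100 : 100 * z ≤ S := by
    rw [← hzs]
    nlinarith
  have hs100' : 100 * s ≤ S := by
    have : 100 * s ≤ s * s := mul_le_mul_of_nonneg_right hs100 hs0.le
    linarith
  by_cases hc : 2 * d + 3 - s - 2 * z ≤ -1
  · have h1 := h (by
      rw [abs_of_nonpos (by linarith)]
      linarith)
    linarith
  · push Not at hc
    have h1 : z + (s - 4) / 2 ≤ d := by linarith
    have h2 : (z + (s - 4) / 2) ^ 2 ≤ d ^ 2 := pow_le_pow_left₀ (by linarith) h1 2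
    have h3 : (z + (s - 4) / 2) ^ 2 = z ^ 2 + (z * s - 4 * z) + ((s - 4) / 2) ^ 2 := by ring
    rw [h3, hzs] at h2
    have h4 : 0 ≤ ((s - 4) / 2) ^ 2 := sq_nonneg _
    linarith

/-- **The strong form of Nagata's inequality for near-uniform multiplicities.** -/
theorem strong_nagataQ : ∃ N : ℕ, ∀ (t : ℕ), N ≤ t → ∀ m : ℕ, 0 < m →
    (m : ℝ) ≤ Real.exp (Real.log t ^ 2 / 64) → ∀ P : Fin t → Fin 2 → ℂ,
    AlgebraicIndependent ℚ (fun ij : Fin t × Fin 2 => P ij.1 ij.2) →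
    ∀ w : Fin t → ℕ, (∀ i, w i = m ∨ w i = m + 1) → ∀ (d : ℕ) (F : MvPolynomial (Fin 3) ℂ),
      F.IsHomogeneous d → F ≠ 0 →
      (∀ i, F ∈ (Ideal.span ({X 0 - C (P i 0) * X 2, X 1 - C (P i 1) * X 2} :
        Set (MvPolynomial (Fin 3) ℂ))) ^ (w i)) →
      (∑ i, (w i : ℝ) ^ 2) + (∑ i, (w i : ℝ)) / 2 ≤ (d : ℝ) ^ 2 := by
  obtain ⟨N, _, hN⟩ := near_uniformQ (ε := 1) one_pos
  refine ⟨N + 10000, fun t ht m hm hmX P hP w hw d F hFd hF0 hF => ?_⟩
  obtain ⟨G, hG, hG'⟩ := hN ℂ t (by omega) m hm hmX w hw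
  have hG2 : aeval (fun ij : Fin t × Fin 2 => P ij.1 ij.2) G ≠ (0 : ℂ) := by
    intro h0
    exact hG ((algebraicIndependent_iff.1 hP) G h0)
  have ht1 : (10000 : ℝ) ≤ t := by exact_mod_cast (show 10000 ≤ t by omega)
  have hmR : (1 : ℝ) ≤ m := by exact_mod_cast hm
  have hwm : ∀ i, (m : ℝ) ≤ w i ∧ (w i : ℝ) ≤ m + 1 ∧
      (w i : ℝ) ^ 2 = (2 * m + 1) * w i - m * (m + 1) := by
    intro i
    rcases hw i with h | h
    · rw [h]
      exact ⟨le_rfl, by linarith, by ring⟩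
    · rw [h]
      push_cast
      exact ⟨by linarith, le_rfl, by ring⟩
  refine neg_num (t := t) (m := m) (S := ∑ i, (w i : ℝ)) (Q := ∑ i, (w i : ℝ) ^ 2) (d := d)
    ht1 hmR ?_ ?_ ?_ (Nat.cast_nonneg d) fun habs => ?_
  · have : ∑ _i : Fin t, (m : ℝ) ≤ ∑ i, (w i : ℝ) := Finset.sum_le_sum fun i _ => (hwm i).1
    rwa [Finset.sum_const, Finset.card_univ, Fintype.card_fin, nsmul_eq_mul] at this
  · have : ∑ i, (w i : ℝ) ≤ ∑ _i : Fin t, ((m : ℝ) + 1) :=
      Finset.sum_le_sum fun i _ => (hwm i).2.1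
    rwa [Finset.sum_const, Finset.card_univ, Fintype.card_fin, nsmul_eq_mul] at this
  · have h1 : ∑ i, (w i : ℝ) ^ 2 = ∑ i, ((2 * (m : ℝ) + 1) * w i - m * (m + 1)) :=
      Finset.sum_congr rfl fun i _ => (hwm i).2.2
    rw [h1, Finset.sum_sub_distrib, ← Finset.mul_sum, Finset.sum_const, Finset.card_univ,
      Fintype.card_fin, nsmul_eq_mul]
  · have h1 := hG' P hG2 d habs
    unfold H932R3.ExpDim at h1
    have h2 : 0 < Module.finrank ℂ
        ↥(MvPolynomial.homogeneousSubmodule (Fin 3) ℂ d ⊓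
          Submodule.restrictScalars ℂ
            (⨅ i : Fin t,
              (Ideal.span
                ({MvPolynomial.X 0 - MvPolynomial.C (P i 0) * MvPolynomial.X 2,
                  MvPolynomial.X 1 - MvPolynomial.C (P i 1) * MvPolynomial.X 2} :
                  Set (MvPolynomial (Fin 3) ℂ))) ^ (w i))) := by
      have h3 : Module.Finite ℂ ↥(MvPolynomial.homogeneousSubmodule (Fin 3) ℂ d) :=
        Module.Finite.iff_fg.2 (MvPolynomial.homogeneousSubmodule_fg _ _ d)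
      have h4 := Submodule.finiteDimensional_of_le
        (S₁ := MvPolynomial.homogeneousSubmodule (Fin 3) ℂ d ⊓
          Submodule.restrictScalars ℂ
            (⨅ i : Fin t,
              (Ideal.span
                ({MvPolynomial.X 0 - MvPolynomial.C (P i 0) * MvPolynomial.X 2,
                  MvPolynomial.X 1 - MvPolynomial.C (P i 1) * MvPolynomial.X 2} :
                  Set (MvPolynomial (Fin 3) ℂ))) ^ (w i)))
        (S₂ := MvPolynomial.homogeneousSubmodule (Fin 3) ℂ d) inf_le_left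
      rw [Module.finrank_pos_iff]
      refine ⟨⟨⟨F, Submodule.mem_inf.2 ⟨hFd, ?_⟩⟩, 0, fun h5 => hF0 ?_⟩⟩
      · rw [Submodule.restrictScalars_mem, Ideal.mem_iInf]
        exact hF
      · exact congrArg Subtype.val h5
    rw [h1] at h2
    have h3 : ∑ i, (w i + 1).choose 2 + 1 ≤ (d + 2).choose 2 := by omega
    have h4 : (((∑ i, (w i + 1).choose 2 + 1 : ℕ)) : ℝ) ≤ (((d + 2).choose 2 : ℕ) : ℝ) := by
      exact_mod_cast h3
    push_cast at h4
    have e1 : (((d + 2).choose 2 : ℕ) : ℝ) = ((d : ℝ) + 2) * (d + 1) / 2 := by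
      rw [Nat.cast_choose_two]
      push_cast
      ring
    have e2 : ∀ i, (((w i + 1).choose 2 : ℕ) : ℝ) = ((w i : ℝ) ^ 2 + w i) / 2 := by
      intro i
      rw [Nat.cast_choose_two]
      push_cast
      ring
    have e3 : ∑ i, (((w i + 1).choose 2 : ℕ) : ℝ) =
        (∑ i, (w i : ℝ) ^ 2 + ∑ i, (w i : ℝ)) / 2 := by
      rw [Finset.sum_congr rfl fun i _ => e2 i, ← Finset.sum_div, Finset.sum_add_distrib]
    rw [e1, e3] at h4
    nlinarith

end Pool.Agent.H852.QP
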