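import Mathlib
import Pool.Agent.H852.QP.Num

set_option autoImplicit false

/-!
# Quasi-polynomial quantities, real version
-/

namespace Pool.Agent.H852.QP

/-- The error `R ^ (-q)` is quasi-polynomially small. -/
theorem exists_q_expR {R : ℝ} (hR : (5 : ℝ) ^ 168 ≤ R) : ∃ q : ℕ, (5 : ℝ) ^ (14 * q + 28) ≤ R ∧
    2 / R ^ q ≤ Real.exp (-(Real.log R ^ 2 / 31)) := by
  have hR0 : 0 < R := lt_of_lt_of_le (by positivity) hR
  have hl := log5_lt
  have hl' := log5_gt
  have hl5 : 0 < Real.log 5 := by linarith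
  obtain ⟨X, hX⟩ : ∃ X, X = Real.log R := ⟨_, rfl⟩
  have hXl : 168 * Real.log 5 ≤ X := by
    rw [hX]
    have : (168 : ℝ) * Real.log 5 = Real.log ((5 : ℝ) ^ 168) := by
      rw [Real.log_pow]
      norm_num
    rw [this]
    exact Real.log_le_log (by positivity) hR
  have hX0 : 0 < X := by nlinarith
  have hX252 : 252 ≤ X := by linarith
  obtain ⟨x, hx⟩ : ∃ x, x = X / Real.log 5 := ⟨_, rfl⟩
  have hxl : x * Real.log 5 = X := by
    rw [hx]
    field_simp
  have hx168 : 168 ≤ x := by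
    rw [hx, le_div_iff₀ hl5]
    exact hXl
  obtain ⟨q, hq⟩ : ∃ q, q = ⌊(x - 28) / 14⌋₊ := ⟨_, rfl⟩
  have hq1 : (q : ℝ) ≤ (x - 28) / 14 := by
    rw [hq]
    exact Nat.floor_le (by linarith)
  have hq2 : (x - 28) / 14 < q + 1 := by
    rw [hq]
    exact Nat.lt_floor_add_one _
  refine ⟨q, ?_, ?_⟩
  · have h2 : ((14 * q + 28 : ℕ) : ℝ) * Real.log 5 ≤ Real.log R := by
      rw [← hX, ← hxl]
      refine mul_le_mul_of_nonneg_right ?_ hl5.le
      push_cast
      linarith
    rw [← Real.log_pow, Real.log_le_log_iff (by positivity) hR0] at h2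
    exact h2
  · have h3 : X ^ 2 / 31 + 1 ≤ q * X := by
      have h4 : X / 1.6174 ≤ x := by
        rw [hx]
        exact div_le_div_of_nonneg_left hX0.le hl5 hl.le
      have h6 : x * (3 / 56) ≤ q := by linarith
      have h7 : X / 1.6174 * (3 / 56) * X ≤ q * X :=
        mul_le_mul_of_nonneg_right (by linarith) hX0.le
      refine le_trans ?_ h7
      have e : X / 1.6174 * (3 / 56) * X = X ^ 2 * (3 / (56 * 1.6174)) := by ring
      rw [e]
      have h9 : (1 / 31 + 1 / 2000 : ℝ) ≤ 3 / (56 * 1.6174) := by norm_num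
      have h10 := mul_le_mul_of_nonneg_left h9 (sq_nonneg X)
      have h11 : (252 : ℝ) ^ 2 ≤ X ^ 2 := pow_le_pow_left₀ (by norm_num) hX252 2
      linarith
    have h9 : R ^ q = Real.exp (q * X) := by
      rw [hX, mul_comm, Real.exp_mul, Real.exp_log hR0, Real.rpow_natCast]
    rw [h9, ← hX, div_le_iff₀ (Real.exp_pos _), ← Real.exp_add]
    have h10 : (1 : ℝ) ≤ -(X ^ 2 / 31) + q * X := by linarith
    have h11 : (2 : ℝ) ≤ Real.exp 1 := by
      have := Real.add_one_le_exp (1 : ℝ)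
      linarith
    exact h11.trans (Real.exp_le_exp.2 h10)

end Pool.Agent.H852.QP
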