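import Mathlib
import Pool.Agent.H852.QP.Both
import Pool.Agent.H852.QP.NumR

set_option autoImplicit false

/-!
# Generic points of projective spaces of every dimension, in every characteristic
-/

namespace Pool.Agent.H852.QP

open MvPolynomial Pool.Agent.H932R5 Pool.Agent.H519R3.AC

universe u

/-- Emptiness for equal multiplicities in every dimension: the numerical data. -/
theorem high_data {E r : ℕ} (hr : 5 ^ (84 * (E + 1) ^ 2) ≤ r) :
    ∃ L μ x : ℝ, L = (r : ℝ) ^ ((1 : ℝ) / ((E + 1 : ℕ) : ℝ)) ∧ L ^ (E + 1) = r ∧ 1 ≤ L ∧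
      x = Real.exp (-(4 * Real.log r ^ 2 / (31 * ((E + 1 : ℕ) : ℝ) ^ 2))) ∧
      μ = 1 + x ∧
      ∀ (k : Type u) [Field k] [IsAlgClosed k] (P : Fin r → Fin (E + 1) → k),
        AlgebraicIndependent (⊥ : Subfield k) (fun ij : Fin r × Fin (E + 1) => P ij.1 ij.2) →
        ∀ (w : Fin r → ℕ) (d : ℕ), μ ^ E * L ^ E * d < ((∑ i, w i : ℕ) : ℝ) → EmptyAt w P d := by
  have hr0 : 0 < r := lt_of_lt_of_le (by positivity) hr
  have hrR : (0 : ℝ) < r := by exact_mod_cast hr0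
  have hNR : (0 : ℝ) < ((E + 1 : ℕ) : ℝ) := by positivity
  obtain ⟨L, hL⟩ : ∃ L : ℝ, L = (r : ℝ) ^ ((1 : ℝ) / ((E + 1 : ℕ) : ℝ)) := ⟨_, rfl⟩
  have hL0 : 0 < L := by rw [hL]; positivity
  have hLE : L ^ (E + 1) = r := by
    rw [hL, ← Real.rpow_natCast, ← Real.rpow_mul hrR.le]
    rw [one_div, inv_mul_cancel₀ hNR.ne', Real.rpow_one]
  have hL84 : (5 : ℝ) ^ (84 * (E + 1)) ≤ L := by
    by_contra hcon
    push Not at hcon
    have h1 : L ^ (E + 1) < ((5 : ℝ) ^ (84 * (E + 1))) ^ (E + 1) :=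
      pow_lt_pow_left₀ hcon hL0.le (by omega)
    rw [hLE, ← pow_mul] at h1
    have h2 : ((5 ^ (84 * (E + 1) ^ 2) : ℕ) : ℝ) ≤ r := by exact_mod_cast hr
    push_cast at h2
    have e : 84 * (E + 1) * (E + 1) = 84 * (E + 1) ^ 2 := by ring
    rw [e] at h1
    linarith
  have hL84' : (5 : ℝ) ^ 84 ≤ L :=
    le_trans (pow_le_pow_right₀ (by norm_num) (by omega)) hL84
  have hL1 : 1 ≤ L := le_trans (one_le_pow₀ (by norm_num)) hL84'
  have hR : (5 : ℝ) ^ 168 ≤ L ^ 2 := by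
    have h1 := pow_le_pow_left₀ (by positivity) hL84' 2
    rw [← pow_mul] at h1
    exact h1
  obtain ⟨q, hq1, hq2⟩ := exists_q_expR hR
  have hlog : Real.log (L ^ 2) = 2 * Real.log r / ((E + 1 : ℕ) : ℝ) := by
    rw [Real.log_pow, hL, Real.log_rpow hrR]
    push_cast
    ring
  have hx : Real.exp (-(Real.log (L ^ 2) ^ 2 / 31)) =
      Real.exp (-(4 * Real.log r ^ 2 / (31 * ((E + 1 : ℕ) : ℝ) ^ 2))) := by
    rw [hlog]
    congr 1
    field_simp
    ring
  rw [hx] at hq2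
  obtain ⟨x, hxd⟩ : ∃ x, x = Real.exp (-(4 * Real.log r ^ 2 / (31 * ((E + 1 : ℕ) : ℝ) ^ 2))) :=
    ⟨_, rfl⟩
  have hx0 : 0 < x := by rw [hxd]; exact Real.exp_pos _
  rw [← hxd] at hq2
  refine ⟨L, 1 + x, x, hL, hLE, hL1, hxd, rfl, fun k _ _ P hP w d hd => ?_⟩
  have hrat := ratioQ q hL1 hq1
  refine emptyAt_generic (w := w) hP (L := L) (μ := 1 + x) (fun E' t ht => ?_) hL1
    (by linarith) hLE hd
  obtain ⟨σ, h1, h2, h3, _⟩ := hrat E' t ht
  exact ⟨σ, h1, h2, h3.trans (by linarith)⟩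

/-- There is a nonzero form of degree `d` vanishing to order `m` at the points. -/
def HasFormE {k : Type u} [Field k] {E r : ℕ} (P : Fin r → Fin (E + 1) → k) (m d : ℕ) : Prop :=
  ∃ F : MvPolynomial (Fin (E + 2)) k, F.IsHomogeneous d ∧ F ≠ 0 ∧
    ∀ i, F ∈ (Ideal.span (Set.range fun j : Fin (E + 1) => X j.succ - C (P i j) * X 0) :
      Ideal (MvPolynomial (Fin (E + 2)) k)) ^ m

theorem not_hasFormE {k : Type u} [Field k] {E r m d : ℕ} {P : Fin r → Fin (E + 1) → k}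
    (h : EmptyAt (fun _ : Fin r => m) P d) : ¬ HasFormE P m d := by
  rintro ⟨F, h1, h2, h3⟩
  refine h2 ?_
  have h4 : F ∈ Vd d (fun _ : Fin r => m) P := by
    unfold Vd
    rw [Submodule.mem_inf, mem_homogeneousSubmodule, Submodule.restrictScalars_mem,
      Ideal.mem_iInf]
    exact ⟨h1, h3⟩
  rw [h.bot] at h4
  exact h4

/-- **The lower bound for all multiplicities.** -/
theorem high_low {k : Type u} [Field k] [IsAlgClosed k] {E r : ℕ}
    (hr : 5 ^ (84 * (E + 1) ^ 2) ≤ r) {P : Fin r → Fin (E + 1) → k}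
    (hP : AlgebraicIndependent (⊥ : Subfield k) (fun ij : Fin r × Fin (E + 1) => P ij.1 ij.2))
    {m d : ℕ} (hF : HasFormE P m d) :
    (1 - (E : ℝ) * Real.exp (-(4 * Real.log r ^ 2 / (31 * ((E + 1 : ℕ) : ℝ) ^ 2)))) *
      (m * (r : ℝ) ^ ((1 : ℝ) / ((E + 1 : ℕ) : ℝ))) ≤ d := by
  obtain ⟨L, μ, x, hL, hLE, hL1, hx, hμ, hmain⟩ := high_data (E := E) hr
  rw [← hL, ← hx]
  have hx0 : 0 < x := by rw [hx]; exact Real.exp_pos _
  have hL0 : 0 < L := by linarith
  have h1 : ¬ μ ^ E * L ^ E * d < ((∑ _i : Fin r, m : ℕ) : ℝ) := fun h =>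
    not_hasFormE (hmain k P hP _ d h) hF
  push Not at h1
  rw [Finset.sum_const, Finset.card_univ, Fintype.card_fin, smul_eq_mul] at h1
  push_cast at h1
  rw [← hLE, pow_succ, hμ] at h1
  have h2 : L ^ E * (L * m) ≤ L ^ E * ((1 + x) ^ E * d) := by
    calc L ^ E * (L * m) = L ^ E * L * m := by ring
      _ ≤ (1 + x) ^ E * L ^ E * d := h1
      _ = L ^ E * ((1 + x) ^ E * d) := by ring
  have h3 : L * m ≤ (1 + x) ^ E * d := le_of_mul_le_mul_left h2 (by positivity)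
  have hm0 : (0 : ℝ) ≤ m := Nat.cast_nonneg m
  have hd0 : (0 : ℝ) ≤ d := Nat.cast_nonneg d
  rcases le_or_gt ((E : ℝ) * x) 1 with hEx | hEx
  · rcases le_or_gt x 1 with hx1 | hx1
    · have h4 : 1 - (E : ℝ) * x ≤ (1 - x) ^ E := by
        have h5 := one_add_mul_le_pow (show -2 ≤ -x by linarith) E
        have e1 : 1 + (E : ℝ) * -x = 1 - E * x := by ring
        have e2 : 1 + -x = 1 - x := by ring
        rw [e1, e2] at h5
        exact h5
      have h6 : (1 - x) ^ E * (1 + x) ^ E ≤ 1 := by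
        rw [← mul_pow]
        exact pow_le_one₀ (by nlinarith) (by nlinarith)
      calc (1 - (E : ℝ) * x) * (m * L) ≤ (1 - (E : ℝ) * x) * ((1 + x) ^ E * d) := by
            refine mul_le_mul_of_nonneg_left ?_ (by linarith)
            linarith
        _ ≤ (1 - x) ^ E * ((1 + x) ^ E * d) := mul_le_mul_of_nonneg_right h4 (by positivity)
        _ = ((1 - x) ^ E * (1 + x) ^ E) * d := by ring
        _ ≤ 1 * d := mul_le_mul_of_nonneg_right h6 hd0
        _ = d := one_mul _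
    · -- then `E = 0`
      have hE0 : E = 0 := by
        by_contra hne
        have h7 : (1 : ℝ) ≤ E := by exact_mod_cast Nat.one_le_iff_ne_zero.2 hne
        nlinarith
      subst hE0
      rw [pow_zero, one_mul] at h3
      rw [Nat.cast_zero, zero_mul, sub_zero, one_mul]
      linarith
  · have h4 : 0 ≤ (m : ℝ) * L := by positivity
    calc (1 - (E : ℝ) * x) * (m * L) ≤ 0 :=
          mul_nonpos_of_nonpos_of_nonneg (by linarith) h4
      _ ≤ d := hd0

/-- **The sharp bound for quasi-polynomial multiplicities.** -/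
theorem high_exact {k : Type u} [Field k] [IsAlgClosed k] {E r : ℕ} (hE : 0 < E)
    (hr : 5 ^ (84 * (E + 1) ^ 2) ≤ r) {P : Fin r → Fin (E + 1) → k}
    (hP : AlgebraicIndependent (⊥ : Subfield k) (fun ij : Fin r × Fin (E + 1) => P ij.1 ij.2))
    {m d : ℕ} (hm : 0 < m)
    (hmX : (m : ℝ) ≤ Real.exp (Real.log r ^ 2 / (16 * ((E + 1 : ℕ) : ℝ) ^ 3)))
    (hF : HasFormE P m d) : m * (r : ℝ) ^ ((1 : ℝ) / ((E + 1 : ℕ) : ℝ)) ≤ d := by
  obtain ⟨L, μ, x, hL, hLE, hL1, hx, hμ, hmain⟩ := high_data (E := E) hr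
  rw [← hL]
  have hr0 : 0 < r := lt_of_lt_of_le (by positivity) hr
  have hrR : (0 : ℝ) < r := by exact_mod_cast hr0
  have hx0 : 0 < x := by rw [hx]; exact Real.exp_pos _
  have hL0 : 0 < L := by linarith
  by_contra hcon
  push Not at hcon
  refine not_hasFormE (hmain k P hP _ d ?_) hF
  rw [Finset.sum_const, Finset.card_univ, Fintype.card_fin, smul_eq_mul]
  push_cast
  have hm0 : (0 : ℝ) < m := by exact_mod_cast hm
  have hd0 : (0 : ℝ) ≤ d := Nat.cast_nonneg d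
  obtain ⟨N, hN⟩ : ∃ N : ℕ, N = E + 1 := ⟨_, rfl⟩
  have hN2 : 2 ≤ N := by omega
  have hNR : (2 : ℝ) ≤ N := by exact_mod_cast hN2
  rw [← hN] at hLE hx hmX hr
  -- integrality
  have hint : (d : ℝ) ^ N ≤ r * (m : ℝ) ^ N - 1 := by
    have h1 : (d : ℝ) ^ N < (m * L) ^ N := pow_lt_pow_left₀ hcon hd0 (by omega)
    rw [mul_pow, hLE] at h1
    have h2 : d ^ N < m ^ N * r := by exact_mod_cast h1
    have h3 : d ^ N + 1 ≤ m ^ N * r := h2
    have h4 : ((d ^ N + 1 : ℕ) : ℝ) ≤ ((m ^ N * r : ℕ) : ℝ) := by exact_mod_cast h3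
    push_cast at h4
    linarith
  -- the size of `z = 1 / (r m ^ N)`
  obtain ⟨A, hA⟩ : ∃ A : ℝ, A = r * (m : ℝ) ^ N := ⟨_, rfl⟩
  have hA0 : 0 < A := by rw [hA]; positivity
  rw [← hA] at hint
  have hsmall : 2 * ((E : ℝ) * N) * x * A ≤ 1 := by
    obtain ⟨X, hX⟩ : ∃ X, X = Real.log r := ⟨_, rfl⟩
    rw [← hX] at hx hmX
    have hl' := log5_gt
    have hX126 : 126 * (N : ℝ) ^ 2 ≤ X := by
      have h1 : ((84 * N ^ 2 : ℕ) : ℝ) * Real.log 5 ≤ X := by
        rw [hX, ← Real.log_pow]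
        refine Real.log_le_log (by positivity) ?_
        exact_mod_cast hr
      push_cast at h1
      have h2 : 84 * (N : ℝ) ^ 2 * 1.5 ≤ 84 * (N : ℝ) ^ 2 * Real.log 5 :=
        mul_le_mul_of_nonneg_left hl'.le (by positivity)
      linarith
    have hX0 : 0 < X := by nlinarith
    obtain ⟨Y, hY⟩ : ∃ Y, Y = X ^ 2 / (N : ℝ) ^ 2 := ⟨_, rfl⟩
    have hYX : 126 * X ≤ Y := by
      rw [hY, le_div_iff₀ (by positivity)]
      nlinarith
    have h1 : x = Real.exp (-(4 / 31 * Y)) := by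
      rw [hx, hY]
      congr 1
      field_simp
    have h2 : A ≤ Real.exp (X + Y / 16) := by
      rw [hA, Real.exp_add]
      refine mul_le_mul ?_ ?_ (by positivity) (Real.exp_pos _).le
      · rw [hX, Real.exp_log hrR]
      · calc (m : ℝ) ^ N ≤ (Real.exp (X ^ 2 / (16 * (N : ℝ) ^ 3))) ^ N :=
              pow_le_pow_left₀ hm0.le hmX N
          _ = Real.exp (Y / 16) := by
              rw [← Real.exp_nat_mul, hY]
              congr 1
              field_simp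
    have h3 : 2 * ((E : ℝ) * N) ≤ Real.exp X := by
      have hE1 : (E : ℝ) ≤ N := by exact_mod_cast (show E ≤ N by omega)
      have h4 : 2 * ((E : ℝ) * N) ≤ 2 * (N : ℝ) ^ 2 := by nlinarith
      have h5 := Real.add_one_le_exp X
      nlinarith
    have h4 : 2 * ((E : ℝ) * N) * x * A ≤
        Real.exp X * Real.exp (-(4 / 31 * Y)) * Real.exp (X + Y / 16) := by
      rw [← h1]
      refine mul_le_mul (mul_le_mul_of_nonneg_right h3 hx0.le) h2 hA0.le (by positivity)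
    refine h4.trans ?_
    rw [← Real.exp_add, ← Real.exp_add, Real.exp_le_one_iff]
    linarith
  -- conclusion
  refine lt_of_pow_lt_pow_left₀ N (by positivity) ?_
  have hEN1 : (1 : ℝ) ≤ (E : ℝ) * N := by
    have hE1 : (1 : ℝ) ≤ E := by exact_mod_cast hE
    nlinarith
  have hpow : (μ ^ E) ^ N ≤ 1 + 2 * ((E : ℝ) * N) * x := by
    rw [hμ, ← pow_mul]
    have hENx : ((E * N : ℕ) : ℝ) * x ≤ 1 := by
      push_cast
      have hA1 : 1 ≤ A := by
        rw [hA]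
        have h1 : (1 : ℝ) ≤ r := by exact_mod_cast hr0
        have h2 : (1 : ℝ) ≤ (m : ℝ) ^ N := one_le_pow₀ (by exact_mod_cast hm)
        nlinarith
      have h3 : 0 ≤ 2 * ((E : ℝ) * N) * x := by positivity
      have h4 : 2 * ((E : ℝ) * N) * x * 1 ≤ 2 * ((E : ℝ) * N) * x * A :=
        mul_le_mul_of_nonneg_left hA1 h3
      linarith
    have h1 : (1 + x) ^ (E * N) ≤ Real.exp (((E * N : ℕ) : ℝ) * x) := by
      rw [Real.exp_nat_mul]
      refine pow_le_pow_left₀ (by linarith) ?_ _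
      have := Real.add_one_le_exp x
      linarith
    have h2 : Real.exp (((E * N : ℕ) : ℝ) * x) ≤ 1 + 2 * (((E * N : ℕ) : ℝ) * x) := by
      obtain ⟨y, hy⟩ : ∃ y, y = ((E * N : ℕ) : ℝ) * x := ⟨_, rfl⟩
      rw [← hy] at hENx ⊢
      have hy0 : 0 ≤ y := by rw [hy]; positivity
      have h5 := Real.abs_exp_sub_one_le (x := y) (by rw [abs_of_nonneg hy0]; exact hENx)
      rw [abs_of_nonneg hy0] at h5
      have h6 := le_abs_self (Real.exp y - 1)
      linarith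
    have h3 := h1.trans h2
    push_cast at h3
    linarith
  have e1 : (μ ^ E * L ^ E * (d : ℝ)) ^ N = (μ ^ E) ^ N * (r : ℝ) ^ E * (d : ℝ) ^ N := by
    rw [mul_pow, mul_pow, ← pow_mul L E N, mul_comm E N, pow_mul, hLE]
  have e2 : ((r : ℝ) * m) ^ N = (r : ℝ) ^ E * A := by
    rw [hA, mul_pow, hN, pow_succ (r : ℝ) E]
    ring
  rw [e1, e2]
  have h5 : (μ ^ E) ^ N * (d : ℝ) ^ N < A := by
    have h6 : (μ ^ E) ^ N * (d : ℝ) ^ N ≤ (1 + 2 * ((E : ℝ) * N) * x) * (A - 1) := by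
      refine mul_le_mul hpow hint (by positivity) ?_
      have : 0 ≤ 2 * ((E : ℝ) * N) * x := by positivity
      linarith
    refine lt_of_le_of_lt h6 ?_
    have h7 : 0 < 2 * ((E : ℝ) * N) * x := by positivity
    nlinarith
  calc (μ ^ E) ^ N * (r : ℝ) ^ E * (d : ℝ) ^ N = (r : ℝ) ^ E * ((μ ^ E) ^ N * (d : ℝ) ^ N) := by
        ring
    _ < (r : ℝ) ^ E * A := mul_lt_mul_of_pos_left h5 (by positivity)

end Pool.Agent.H852.QP
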