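import Mathlib
import Pool.Agent.H852.QP.High

set_option autoImplicit false

/-!
# Waldschmidt constants of points in projective spaces
-/

namespace Pool.Agent.H852.QP

open MvPolynomial Filter Topology

universe u

variable {k : Type u} [Field k] {E r : ℕ}

theorem hasFormE_exists (P : Fin r → Fin (E + 1) → k) (m : ℕ) : ∃ d, HasFormE P m d := by
  classical
  refine ⟨∑ _i : Fin r, (1 * m), ∏ i : Fin r, (X (Fin.succ (0 : Fin (E + 1))) - C (P i 0) * X 0) ^ m,
    ?_, ?_, fun i => ?_⟩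
  · refine IsHomogeneous.prod _ _ _ fun i _ => IsHomogeneous.pow ?_ m
    refine (isHomogeneous_X k _).sub ?_
    have h := (isHomogeneous_C (Fin (E + 2)) (P i 0)).mul (isHomogeneous_X k (0 : Fin (E + 2)))
    rwa [zero_add] at h
  · refine Finset.prod_ne_zero_iff.2 fun i _ => pow_ne_zero _ fun h => ?_
    have h1 := congrArg (eval (fun a : Fin (E + 2) => if a = 0 then (0 : k) else 1)) h
    rw [map_sub, map_mul, eval_X, eval_X, eval_C, if_neg (Fin.succ_ne_zero _), if_pos rfl,
      mul_zero, sub_zero, map_zero] at h1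
    exact one_ne_zero h1
  · have h1 : (X (Fin.succ (0 : Fin (E + 1))) - C (P i 0) * X 0 : MvPolynomial (Fin (E + 2)) k) ∈
        Ideal.span (Set.range fun j : Fin (E + 1) => X j.succ - C (P i j) * X 0) :=
      Ideal.subset_span ⟨0, rfl⟩
    exact Ideal.mem_of_dvd _ (Finset.dvd_prod_of_mem _ (Finset.mem_univ i))
      (Ideal.pow_mem_pow h1 m)

theorem hasFormE_mul {P : Fin r → Fin (E + 1) → k} {m m' d d' : ℕ} (h : HasFormE P m d)
    (h' : HasFormE P m' d') : HasFormE P (m + m') (d + d') := by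
  obtain ⟨F, h1, h2, h3⟩ := h
  obtain ⟨G, g1, g2, g3⟩ := h'
  refine ⟨F * G, h1.mul g1, mul_ne_zero h2 g2, fun i => ?_⟩
  rw [pow_add]
  exact Ideal.mul_mem_mul (h3 i) (g3 i)

/-- The least degree of a nonzero form vanishing to order at least `m`. -/
noncomputable def alpE (P : Fin r → Fin (E + 1) → k) (m : ℕ) : ℕ := sInf {d | HasFormE P m d}

theorem hasFormE_alp (P : Fin r → Fin (E + 1) → k) (m : ℕ) : HasFormE P m (alpE P m) :=
  Nat.sInf_mem (hasFormE_exists P m)

/-- The Waldschmidt constant exists, and lower bounds pass to it. -/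
theorem exists_waldE (P : Fin r → Fin (E + 1) → k) {c : ℝ}
    (hc : ∀ m : ℕ, c * m ≤ alpE P m) :
    ∃ e : ℝ, Tendsto (fun m : ℕ => (alpE P m : ℝ) / m) atTop (𝓝 e) ∧ c ≤ e := by
  have hsub : Subadditive (fun m : ℕ => (alpE P m : ℝ)) := by
    intro m n
    have : alpE P (m + n) ≤ alpE P m + alpE P n :=
      Nat.sInf_le (hasFormE_mul (hasFormE_alp P m) (hasFormE_alp P n))
    show (alpE P (m + n) : ℝ) ≤ alpE P m + alpE P n
    exact_mod_cast this
  have hbdd : BddBelow (Set.range fun n : ℕ => (alpE P n : ℝ) / n) := by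
    refine ⟨0, ?_⟩
    rintro _ ⟨n, rfl⟩
    show 0 ≤ (alpE P n : ℝ) / n
    positivity
  have hlim := hsub.tendsto_lim hbdd
  refine ⟨hsub.lim, hlim, ge_of_tendsto hlim ?_⟩
  filter_upwards [eventually_gt_atTop 0] with m hm
  have hmR : (0 : ℝ) < m := by exact_mod_cast hm
  rw [le_div_iff₀ hmR]
  exact hc m

end Pool.Agent.H852.QP
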